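import Pool.Agent.Q53.SP.Gt

/-!
# Project SP (helper41), job N19a: interpolation
-/

set_option autoImplicit false

namespace Pool.Agent.Q53.SP

open Polynomial Pool.Agent.Q41.SU Pool.Agent.Q41.SP

universe u

/-- the integers -/
def AA (Λ : Type*) [NormedField Λ] [IsUltrametricDist Λ] : Subring Λ where
  carrier := {x | ‖x‖ ≤ 1}
  mul_mem' := fun {a b} ha hb => by
    change ‖a * b‖ ≤ 1
    rw [norm_mul]
    exact mul_le_one₀ ha (norm_nonneg _) hb
  one_mem' := by
    change ‖(1 : Λ)‖ ≤ 1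
    rw [norm_one]
  add_mem' := fun {a b} ha hb => (IsUltrametricDist.norm_add_le_max a b).trans (max_le ha hb)
  zero_mem' := by
    change ‖(0 : Λ)‖ ≤ 1
    rw [norm_zero]
    exact zero_le_one
  neg_mem' := fun {a} ha => by
    change ‖-a‖ ≤ 1
    rw [norm_neg]
    exact ha

/-- the ideal of the small elements -/
def JJ (Λ : Type*) [NormedField Λ] [IsUltrametricDist Λ] (M : ℕ) : Ideal (AA Λ) where
  carrier := {x | ‖(x : Λ)‖ ≤ Real.exp (-(M : ℝ))}
  add_mem' := fun {a b} ha hb => (IsUltrametricDist.norm_add_le_max (a : Λ) b).trans (max_le ha hb)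
  zero_mem' := by
    change ‖((0 : AA Λ) : Λ)‖ ≤ _
    rw [ZeroMemClass.coe_zero, norm_zero]
    exact (Real.exp_pos _).le
  smul_mem' := fun c {x} hx => by
    change ‖((c * x : AA Λ) : Λ)‖ ≤ _
    rw [Subring.coe_mul, norm_mul]
    have h1 : ‖(c : Λ)‖ ≤ 1 := c.2
    have h2 : ‖(x : Λ)‖ ≤ Real.exp (-(M : ℝ)) := hx
    calc ‖(c : Λ)‖ * ‖(x : Λ)‖ ≤ 1 * ‖(x : Λ)‖ := mul_le_mul_of_nonneg_right h1 (norm_nonneg _)
      _ = ‖(x : Λ)‖ := one_mul _
      _ ≤ _ := h2

/-- the algebraic identity -/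
lemma pp_zero {R : Type*} [CommRing R] (F : R[X]) (c v : R) (S β₀ : ℕ) (hS : 1 ≤ S) (hβ : 1 ≤ β₀)
    (hF : F = C c * (X ^ S - C v) ^ β₀) :
    C (((β₀ : R) * F.coeff (S * β₀)) ^ β₀) * F -
      C (F.coeff (S * β₀)) * (C ((β₀ : R) * F.coeff (S * β₀)) * X ^ S +
        C (F.coeff (S * β₀ - S))) ^ β₀ = 0 := by
  have hexp : ∀ p : R[X], p.comp (X ^ S) = expand R S p := fun p => by
    rw [expand_eq_comp_X_pow]
  have h1 : F = expand R S (C c * (X - C v) ^ β₀) := by
    rw [hF, ← hexp]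
    simp
  have h2 : F.coeff (S * β₀) = c := by
    rw [h1, mul_comm S, coeff_expand_mul (by omega), coeff_C_mul]
    have h3 := ((monic_X_sub_C v).pow β₀)
    have h4 : ((X - C v : R[X]) ^ β₀).coeff β₀ = 1 := by
      by_cases hR : Nontrivial R
      · have h5 := h3.coeff_natDegree
        rwa [(monic_X_sub_C v).natDegree_pow, natDegree_X_sub_C, mul_one] at h5
      · rw [not_nontrivial_iff_subsingleton] at hR
        exact Subsingleton.elim _ _
    rw [h4, mul_one]
  have h3 : F.coeff (S * β₀ - S) = -((β₀ : R) * c * v) := by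
    have h4 : S * β₀ - S = (β₀ - 1) * S := by
      rw [Nat.sub_mul, one_mul, mul_comm]
    rw [h1, h4, coeff_expand_mul (by omega), coeff_C_mul]
    have h5 : (X - C v : R[X]) ^ β₀ = (X + C (-v)) ^ β₀ := by
      rw [map_neg, sub_eq_add_neg]
    rw [h5, coeff_X_add_C_pow]
    have h6 : β₀ - (β₀ - 1) = 1 := by omega
    have h7 : β₀.choose (β₀ - 1) = β₀ := by
      rw [Nat.choose_symm hβ, Nat.choose_one_right]
    rw [h6, h7, pow_one]
    ring
  rw [h2, h3]
  conv_lhs => rw [hF]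
  have h4 : (C ((β₀ : R) * c) * X ^ S + C (-((β₀ : R) * c * v)) : R[X]) =
      C ((β₀ : R) * c) * (X ^ S - C v) := by
    simp only [map_neg, map_mul]
    ring
  have h5 : (C ((β₀ : R) * c) * (X ^ S - C v) : R[X]) ^ β₀ =
      C (((β₀ : R) * c) ^ β₀) * (X ^ S - C v) ^ β₀ := by
    rw [mul_pow, C_pow]
  rw [h4, h5]
  ring

theorem t_intP : S_intP.{u} := by
  intro l t β₀ H M L Λ _ _ _ _ _ _ ψ hψ hβ₀ G T hG hT hroots
  rcases Nat.eq_zero_or_pos M with hM | hM
  · intro i j
    rw [hM, pow_zero]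
    exact one_dvd _
  obtain ⟨β, hβ⟩ : ∃ β, β = l ^ t * β₀ := ⟨_, rfl⟩
  have hlp : l.Prime := Fact.out
  have hS : 1 ≤ l ^ t := Nat.one_le_pow _ _ hlp.pos
  have hβ1 : 1 ≤ β := by
    rw [hβ]
    exact Nat.mul_pos hS hβ₀
  -- the ring homomorphisms
  obtain ⟨φ, hφ⟩ : ∃ φ : PowerSeries L →+* AA Λ, ∀ f, ((φ f : AA Λ) : Λ) = ψ f :=
    ⟨ψ.codRestrict (AA Λ) (fun f => nle hψ f), fun _ => rfl⟩
  obtain ⟨Q, hQ⟩ : ∃ Q : AA Λ →+* (AA Λ ⧸ JJ Λ M), Q = Ideal.Quotient.mk (JJ Λ M) := ⟨_, rfl⟩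
  have hQ0 : ∀ x : AA Λ, Q x = 0 ↔ ‖(x : Λ)‖ ≤ Real.exp (-(M : ℝ)) := by
    intro x
    rw [hQ, Ideal.Quotient.eq_zero_iff_mem]
    rfl
  have hker : ∀ f : PowerSeries L, Q (φ f) = 0 → (PowerSeries.X : PowerSeries L) ^ M ∣ f := by
    intro f hf
    rw [hQ0, hφ] at hf
    exact (hψ f M).1 hf
  have hcharO : CharP (PowerSeries L) l :=
    charP_of_injective_ringHom (R := L) (f := PowerSeries.C) PowerSeries.C_injective l
  have hψinj : Function.Injective ψ := by
    rw [injective_iff_map_eq_zero]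
    intro f hf
    ext n
    have h1 := (hψ f (n + 1)).1 (by rw [hf, norm_zero]; exact (Real.exp_pos _).le)
    rw [PowerSeries.X_pow_dvd_iff] at h1
    rw [h1 n (by omega)]
    simp
  have hφinj : Function.Injective φ := by
    intro f g h
    apply hψinj
    rw [← hφ, ← hφ, h]
  have hcharA : CharP (AA Λ) l :=
    charP_of_injective_ringHom (R := PowerSeries L) (f := φ) hφinj l
  have hsub : Function.Injective (AA Λ).subtype := Subtype.coe_injective
  have hcomp : (AA Λ).subtype.comp φ = ψ := by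
    ext f
    exact hφ f
  -- the fibres
  have key : ∀ y ∈ T, ∀ i, (PowerSeries.X : PowerSeries L) ^ M ∣
      ((pp l t β₀ G).coeff i).eval (PowerSeries.C y) := by
    intro y hy i
    obtain ⟨hy1, hy2⟩ := hroots y hy
    obtain ⟨F, hF⟩ : ∃ F : (PowerSeries L)[X], F = fib G y := ⟨_, rfl⟩
    have hgt : gt ψ G y = F.map ψ := by rw [gt_eq, hF]
    have hFd : F.natDegree ≤ β := by
      rw [hF]
      unfold fib
      refine (natDegree_map_le).trans ?_
      rw [hβ]
      exact hG.1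
    have hgd : (gt ψ G y).natDegree ≤ β := by
      rw [hgt]
      exact natDegree_map_le.trans hFd
    have hgc : (gt ψ G y).coeff β = ψ (F.coeff β) := by rw [hgt, coeff_map]
    have hcc : PowerSeries.constantCoeff (F.coeff β) ≠ 0 := by
      rw [hF, fib_coeff, hβ]
      intro h
      apply hy1
      rw [← h, eval_map]
      have h2 := Polynomial.hom_eval₂ (G.coeff (l ^ t * β₀)) (RingHom.id _)
        (PowerSeries.constantCoeff (R := L)) (PowerSeries.C y)
      simp only [RingHom.comp_id, PowerSeries.constantCoeff_C] at h2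
      exact h2.symm
    have hcn : ‖ψ (F.coeff β)‖ = 1 := nunit hψ _ hcc
    obtain ⟨w, hw⟩ := factb (gt ψ G y) β hgd (by
      rw [hgc]
      intro h
      rw [h, norm_zero] at hcn
      norm_num at hcn)
    have hwr : ∀ j, (gt ψ G y).eval (w j) = 0 := by
      intro j
      rw [hw, eval_mul, eval_prod, Finset.prod_eq_zero (Finset.mem_univ j) (by simp), mul_zero]
    have hw1 : ∀ j, ‖w j‖ ≤ 1 := fun j =>
      rootb (gt ψ G y) β hgd (fun i => by
        rw [hgt, coeff_map]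
        exact nle hψ _) (by rw [hgc]; exact hcn) (w j) (hwr j)
    obtain ⟨w', hw'⟩ : ∃ w' : Fin β → AA Λ, ∀ j, ((w' j : AA Λ) : Λ) = w j :=
      ⟨fun j => ⟨w j, hw1 j⟩, fun _ => rfl⟩
    have hFA : F.map φ = C (φ (F.coeff β)) * ∏ j, (X - C (w' j)) := by
      apply Polynomial.map_injective (AA Λ).subtype hsub
      rw [Polynomial.map_map, hcomp, ← hgt, hw, hgc, Polynomial.map_mul, map_C,
        Polynomial.map_prod]
      simp only [Polynomial.map_sub, map_X, map_C]
      have e1 : ∀ j, (AA Λ).subtype (w' j) = w j := hw'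
      have e2 : (AA Λ).subtype (φ (F.coeff β)) = ψ (F.coeff β) := hφ _
      simp only [e1, e2]
    obtain ⟨v, hv⟩ : ∃ v, v = w' ⟨0, hβ1⟩ := ⟨_, rfl⟩
    have hQw : ∀ j, Q (w' j) = Q v := by
      intro j
      rw [← sub_eq_zero, ← map_sub, hQ0, hv, AddSubgroupClass.coe_sub, hw', hw']
      exact hy2 _ _ (hwr _) (hwr _)
    have hpow : (X - C v : (AA Λ)[X]) ^ β = (X ^ (l ^ t) - C (v ^ (l ^ t))) ^ β₀ := by
      rw [hβ, pow_mul, sub_pow_char_pow, C_pow]
    obtain ⟨η, hη⟩ : ∃ η : (PowerSeries L)[X] →+* (AA Λ ⧸ JJ Λ M),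
        η = (Q.comp φ).comp (evalRingHom (PowerSeries.C y)) := ⟨_, rfl⟩
    have hGη : G.map η = C (Q (φ (F.coeff β))) * (X ^ (l ^ t) - C ((Q v) ^ (l ^ t))) ^ β₀ := by
      have e1 : G.map η = (F.map φ).map Q := by
        rw [hη, hF]
        unfold fib
        rw [Polynomial.map_map, Polynomial.map_map]
      have e2 : (X - C (Q v) : (AA Λ ⧸ JJ Λ M)[X]) ^ β =
          (X ^ (l ^ t) - C ((Q v) ^ (l ^ t))) ^ β₀ := by
        have e3 := congrArg (Polynomial.map Q) hpow
        rw [Polynomial.map_pow, Polynomial.map_pow, Polynomial.map_sub, Polynomial.map_sub,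
          Polynomial.map_pow, map_X, map_C, map_C, map_pow] at e3
        exact e3
      rw [e1, hFA, Polynomial.map_mul, map_C, Polynomial.map_prod]
      simp only [Polynomial.map_sub, map_X, map_C, hQw]
      rw [Finset.prod_const, Finset.card_univ, Fintype.card_fin, e2]
    have hpp := pp_zero (G.map η) _ _ (l ^ t) β₀ hS hβ₀ hGη
    have e1 : (pp l t β₀ G).map η = 0 := by
      rw [← hpp]
      unfold pp
      simp only [Polynomial.map_sub, Polynomial.map_mul, Polynomial.map_pow, Polynomial.map_add,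
        map_C, map_X, coeff_map, map_mul, map_pow, map_natCast, Polynomial.map_natCast]
    have e2 : η ((pp l t β₀ G).coeff i) = 0 := by
      rw [← coeff_map, e1, coeff_zero]
    apply hker
    rw [hη] at e2
    exact e2
  -- interpolation
  intro i j
  rw [PowerSeries.X_pow_dvd_iff]
  intro n hn
  obtain ⟨f, hf⟩ : ∃ f, f = (pp l t β₀ G).coeff i := ⟨_, rfl⟩
  rw [← hf]
  obtain ⟨P, hP⟩ : ∃ P : L[X], P = ∑ j ∈ Finset.range (f.natDegree + 1),
      C (PowerSeries.coeff n (f.coeff j)) * X ^ j := ⟨_, rfl⟩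
  have hPe : ∀ y : L, P.eval y = PowerSeries.coeff n (f.eval (PowerSeries.C y)) := by
    intro y
    rw [hP, eval_finsetSum, eval_eq_sum_range, map_sum]
    refine Finset.sum_congr rfl fun j _ => ?_
    rw [← map_pow, PowerSeries.coeff_mul_C]
    simp
  have hP0 : P = 0 := by
    apply Polynomial.eq_zero_of_infinite_isRoot
    apply hT.mono
    intro y hy
    change P.eval y = 0
    rw [hPe]
    have h1 := key y hy i
    rw [← hf, PowerSeries.X_pow_dvd_iff] at h1
    exact h1 n hn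
  by_cases hj : j ≤ f.natDegree
  · have h1 : P.coeff j = PowerSeries.coeff n (f.coeff j) := by
      rw [hP, finsetSum_coeff]
      simp only [coeff_C_mul, coeff_X_pow, mul_ite, mul_one, mul_zero]
      rw [Finset.sum_ite_eq, if_pos (Finset.mem_range.2 (by omega))]
    rw [← h1, hP0, coeff_zero]
  · rw [coeff_eq_zero_of_natDegree_lt (by omega)]
    simp

end Pool.Agent.Q53.SP
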