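import Pool.Agent.Q53.SP.Gt

/-!
# Project SP (helper41), job N14: roots of local models
-/

set_option autoImplicit false

namespace Pool.Agent.Q53.SP

open Polynomial Pool.Agent.Q41.SU Pool.Agent.Q41.SP

universe u

theorem t_lmrP : S_lmrP.{u} := by
  intro l r β H M L Λ _ _ _ _ ψ hψ hM G H' a hG ha hred y hLM
  obtain ⟨hdeg, hunit, hdv⟩ := hLM
  obtain ⟨b, hb⟩ : ∃ b : L[X], b = (H'.coeff β).map PowerSeries.constantCoeff := ⟨_, rfl⟩
  have hredc : ∀ (G : (PowerSeries L)[X][X]) (i : ℕ),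
      (red G).coeff i = (G.coeff i).map PowerSeries.constantCoeff := by
    intro G i
    unfold red
    rw [coeff_map]
    rfl
  have hmon : ((X - C (X ^ l ^ r) : L[X][X]) ^ β).Monic := (monic_X_sub_C _).pow β
  have hnat : ((X - C (X ^ l ^ r) : L[X][X]) ^ β).natDegree = β := by
    rw [natDegree_pow, natDegree_X_sub_C, mul_one]
  have haG : (G.coeff β).map PowerSeries.constantCoeff = a := by
    rw [← hredc, hred, coeff_C_mul]
    have h1 : ((X - C (X ^ l ^ r) : L[X][X]) ^ β).coeff β = 1 := by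
      have := hmon.coeff_natDegree
      rwa [hnat] at this
    rw [h1, mul_one]
  -- the reduction of `H'`
  have h1 : C b * red G = C a * red H' := by
    ext i j
    rw [coeff_C_mul, coeff_C_mul, hredc, hredc, hb, ← haG, ← Polynomial.map_mul,
      ← Polynomial.map_mul]
    have h2 := hdv i j
    rw [coeff_sub, coeff_C_mul, coeff_C_mul, coeff_sub] at h2
    have h3 : (PowerSeries.X : PowerSeries L) ∣ (PowerSeries.X : PowerSeries L) ^ M :=
      dvd_pow_self _ (by omega)
    have h4 := PowerSeries.X_dvd_iff.1 (h3.trans h2)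
    rw [map_sub, sub_eq_zero] at h4
    rw [coeff_map, coeff_map]
    exact h4
  have h2 : red H' = C b * (X - C (X ^ l ^ r)) ^ β := by
    have h3 : C a * red H' = C a * (C b * (X - C (X ^ l ^ r)) ^ β) := by
      rw [← h1, hred]
      ring
    exact mul_left_cancel₀ (by rw [Ne, C_eq_zero]; exact ha) h3
  obtain ⟨F, hF⟩ : ∃ F : (PowerSeries L)[X], F = fib H' y := ⟨_, rfl⟩
  have hFcc : F.map PowerSeries.constantCoeff = C (b.eval y) * (X - C (y ^ l ^ r)) ^ β := by
    rw [hF, fib_cc, h2, Polynomial.map_mul, Polynomial.map_pow, Polynomial.map_sub, map_C, map_X,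
      map_C]
    simp
  have hFd : F.natDegree ≤ β := by
    rw [hF]
    unfold fib
    exact (natDegree_map_le).trans hdeg
  have hFb : PowerSeries.constantCoeff (F.coeff β) = b.eval y := by
    have h3 := congrArg (fun p => p.coeff β) hFcc
    simp only [coeff_map, coeff_C_mul] at h3
    rw [h3]
    have h4 : ((X - C (y ^ l ^ r) : L[X]) ^ β).coeff β = 1 := by
      have h5 := ((monic_X_sub_C (y ^ l ^ r)).pow β).coeff_natDegree
      rwa [natDegree_pow, natDegree_X_sub_C, mul_one] at h5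
    rw [h4, mul_one]
  have hby : b.eval y ≠ 0 := by
    rw [hb]
    exact hunit
  have hcn : ‖ψ (F.coeff β)‖ = 1 := nunit hψ _ (by rw [hFb]; exact hby)
  have hgt : gt ψ H' y = F.map ψ := by rw [gt_eq, hF]
  have hgd : (gt ψ H' y).natDegree ≤ β := by
    rw [hgt]
    exact natDegree_map_le.trans hFd
  have hgc : (gt ψ H' y).coeff β = ψ (F.coeff β) := by rw [hgt, coeff_map]
  obtain ⟨w, hw⟩ := factb (gt ψ H' y) β hgd (by
    rw [hgc]
    intro h
    rw [h, norm_zero] at hcn
    norm_num at hcn)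
  refine ⟨(gt ψ H' y).coeff β, w, by rw [hgc]; exact hcn, hw, fun j => ?_⟩
  by_contra hj
  rw [not_lt] at hj
  have hβ : 0 < β := Fin.pos j
  -- compare with the model
  obtain ⟨F0, hF0⟩ : ∃ F0 : (PowerSeries L)[X], F0 = C (F.coeff β) *
      (X - C (PowerSeries.C y ^ l ^ r)) ^ β := ⟨_, rfl⟩
  have hdiff : ∀ i, PowerSeries.constantCoeff ((F - F0).coeff i) = 0 := by
    intro i
    have h3 : (F - F0).map PowerSeries.constantCoeff = 0 := by
      rw [Polynomial.map_sub, hFcc, hF0, Polynomial.map_mul, Polynomial.map_pow,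
        Polynomial.map_sub, map_C, map_X, map_C, hFb]
      simp
    have h4 := congrArg (fun p => p.coeff i) h3
    simpa using h4
  have hdd : (F - F0).natDegree ≤ β := by
    refine (natDegree_sub_le _ _).trans (max_le hFd ?_)
    rw [hF0]
    refine (natDegree_C_mul_le _ _).trans ?_
    rw [natDegree_pow, natDegree_X_sub_C, mul_one]
  have hev := evalb ((F - F0).map ψ) β (Real.exp (-1)) (Real.exp_pos _).le
    (natDegree_map_le.trans hdd) (fun i => by
      rw [coeff_map]
      exact nsmall hψ _ (hdiff i)) (w j)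
  have hroot : (F.map ψ).eval (w j) = 0 := by
    rw [← hgt, hw, eval_mul, eval_prod]
    rw [Finset.prod_eq_zero (Finset.mem_univ j) (by simp), mul_zero]
  have h3 : ((F - F0).map ψ).eval (w j) =
      -(ψ (F.coeff β) * (w j - ψ (PowerSeries.C y) ^ l ^ r) ^ β) := by
    rw [Polynomial.map_sub, eval_sub, hroot, hF0, Polynomial.map_mul, Polynomial.map_pow,
      Polynomial.map_sub, map_C, map_X, map_C]
    simp
  rw [h3, norm_neg, norm_mul, norm_pow, hcn, one_mul] at hev
  obtain ⟨ρ, hρ⟩ : ∃ ρ : ℝ, ρ = ‖w j - ψ (PowerSeries.C y) ^ l ^ r‖ := ⟨_, rfl⟩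
  rw [← hρ] at hj hev
  have h4 : max 1 ‖w j‖ ≤ ρ := by
    apply max_le hj
    have h5 : w j = (w j - ψ (PowerSeries.C y) ^ l ^ r) + ψ (PowerSeries.C y) ^ l ^ r := by ring
    rw [h5]
    refine (IsUltrametricDist.norm_add_le_max _ _).trans ?_
    rw [← hρ]
    apply max_le le_rfl
    rw [norm_pow]
    exact (pow_le_one₀ (norm_nonneg _) (nle hψ _)).trans hj
  have h5 : (max 1 ‖w j‖) ^ β ≤ ρ ^ β := pow_le_pow_left₀ (by positivity) h4 β
  have h6 : 0 < ρ ^ β := by positivity
  have h7 : Real.exp (-1) < 1 := by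
    rw [Real.exp_lt_one_iff]
    norm_num
  have h8 : Real.exp (-1) * (max 1 ‖w j‖) ^ β ≤ Real.exp (-1) * ρ ^ β :=
    mul_le_mul_of_nonneg_left h5 (Real.exp_pos _).le
  nlinarith

end Pool.Agent.Q53.SP
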