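import Pool.Agent.Q41.SP.Stm3
import Pool.Agent.Q41.SP.Stm4

/-!
# Project SP (helper41), job N20: nondegeneracy
-/

set_option autoImplicit false

namespace Pool.Agent.Q53.SP

open Finset Polynomial Pool.Agent.Q41.SU Pool.Agent.Q41.SP

universe u

/-- a nonzero polynomial has few zeros on a set of indices -/
lemma count_zeros {E : Type*} [Field E] [DecidableEq E] {n : ℕ} {x : ℕ → E}
    (hx : ∀ i < n, ∀ j < n, x i = x j → i = j) {W : Finset ℕ} (hW : W ⊆ range n) {ρ : E[X]}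
    (hρ : ρ ≠ 0) : W.card ≤ (W.filter fun i => ρ.eval (x i) ≠ 0).card + ρ.natDegree := by
  have h1 := Finset.card_filter_add_card_filter_not (s := W) (fun i => ρ.eval (x i) ≠ 0)
  have h2 : (W.filter fun i => ¬ ρ.eval (x i) ≠ 0).card ≤ ρ.natDegree := by
    have h3 : ((W.filter fun i => ¬ ρ.eval (x i) ≠ 0).image x).card =
        (W.filter fun i => ¬ ρ.eval (x i) ≠ 0).card := by
      apply Finset.card_image_of_injOn
      intro i hi j hj hij
      have hi' := hW (Finset.mem_filter.1 hi).1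
      have hj' := hW (Finset.mem_filter.1 hj).1
      exact hx i (Finset.mem_range.1 hi') j (Finset.mem_range.1 hj') hij
    rw [← h3]
    refine (Finset.card_le_card ?_).trans (Polynomial.card_roots' ρ |>.trans' (Multiset.toFinset_card_le _))
    intro y hy
    rw [Finset.mem_image] at hy
    obtain ⟨i, hi, rfl⟩ := hy
    rw [Finset.mem_filter] at hi
    rw [Multiset.mem_toFinset, mem_roots hρ]
    exact not_not.1 hi.2
  omega

lemma Va_mono {E : Type*} [Field E] {M M' : ℕ} (h : M' ≤ M) {G : (PowerSeries E)[X][X]} {x : E}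
    {y : PowerSeries E} (hV : Va M G x y) : Va M' G x y :=
  (pow_dvd_pow _ h).trans hV

lemma Dv_mono {E : Type*} [Field E] {M M' : ℕ} (h : M' ≤ M) {G : (PowerSeries E)[X][X]}
    (hV : Dv M G) : Dv M' G := fun i j => (pow_dvd_pow _ h).trans (hV i j)

lemma frP_one {E : Type*} [Field E] (G : (PowerSeries E)[X][X]) : frP 1 G = G := by
  unfold frP
  simp only [pow_one]
  exact (as_sum_range_C_mul_X_pow G).symm

lemma tw_cc {l r : ℕ} {k E : Type u} [Field k] [Field E] [Algebra k E] [Fact l.Prime] [CharP E l]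
    {τ : E →ₐ[k] PowerSeries E} {D : Derivation k E E} (h : IsHT l τ D) (x : E) :
    PowerSeries.constantCoeff (tw l r τ x) = x ^ l ^ r := by
  unfold tw
  rw [RingHom.comp_apply, ← PowerSeries.coeff_zero_eq_constantCoeff_apply, PowerSeries.coeff_map,
    PowerSeries.coeff_zero_eq_constantCoeff_apply]
  have h1 := h.const x
  change iterateFrobenius E l r (PowerSeries.constantCoeff (τ x)) = _
  rw [h1, iterateFrobenius_def]

lemma wr_expand {l s : ℕ} {E : Type*} [Field E] [Fact l.Prime] [CharP E l] (hs : s ≠ 0)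
    (P Q : E[X]) : wr (expand E (l ^ s) P) (expand E (l ^ s) Q) = 0 := by
  have h1 : ((l ^ s : ℕ) : E[X]) = 0 := by
    rw [Nat.cast_pow, CharP.cast_eq_zero, zero_pow hs]
  unfold wr
  rw [derivative_expand, derivative_expand, h1]
  ring

theorem t_ndP : S_wpP.{u} → S_pigP → S_itP.{u} → S_insP.{u} → S_fwdP.{u} → S_ppiP.{u} →
    S_ppsP.{u} → S_derP.{u} → S_dscP.{u} → S_ric2P.{u} → S_ndP.{u} := by
  classical
  intro hWP hPIG hIT hINS hFWD hPPI hPPS hDER hDSC hRIC l d β ε hl hd hε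
  induction β generalizing ε with
  | zero =>
    refine ⟨1, 1, one_pos, fun r H => ⟨⌈((H : ℝ) + 1) / ε⌉₊, ?_⟩⟩
    intro k E _ _ _ _ _ τ D hHT p q hRM n x hSeg hn W hW hWε G hG hred hVa
    exfalso
    obtain ⟨g, hg⟩ : ∃ g : E[X], g = (G.coeff 0).map PowerSeries.constantCoeff := ⟨_, rfl⟩
    have hGC : G = C (G.coeff 0) := eq_C_of_natDegree_le_zero hG.1
    have hg0 : g ≠ 0 := by
      intro h
      apply hred
      unfold red
      rw [hGC, map_C, coe_mapRingHom, ← hg, h, C_0]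
    have hgd : g.natDegree ≤ H := by
      rw [hg]
      exact natDegree_map_le.trans (hG.2 0)
    have hroot : ∀ i ∈ W, g.eval (x i) = 0 := by
      intro i hi
      have h1 := hVa i hi
      unfold Va at h1
      rw [hGC, pow_one, evalEval, eval_C, PowerSeries.X_dvd_iff] at h1
      rw [hg, eval_map]
      have h2 := Polynomial.hom_eval₂ (G.coeff 0) (RingHom.id _)
        (PowerSeries.constantCoeff (R := E)) (PowerSeries.C (x i))
      simp only [RingHom.comp_id, PowerSeries.constantCoeff_C] at h2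
      rw [← h2]
      exact h1
    have h1 := count_zeros hSeg.inj hW hg0
    have h2 : (W.filter fun i => g.eval (x i) ≠ 0) = ∅ := by
      rw [Finset.filter_eq_empty_iff]
      intro i hi
      rw [not_not]
      exact hroot i hi
    rw [h2, Finset.card_empty, zero_add] at h1
    have h3 : (W.card : ℝ) ≤ H := by exact_mod_cast h1.trans hgd
    have h4 : ((H : ℝ) + 1) / ε ≤ n := (Nat.le_ceil _).trans (by exact_mod_cast hn)
    rw [div_le_iff₀ hε] at h4
    linarith
  | succ β ih =>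
    obtain ⟨b, hb⟩ : ∃ b, b = β + 1 := ⟨_, rfl⟩
    rw [← hb]
    have hb1 : b - 1 = β := by omega
    have hlF : 1 < l := hl.one_lt
    obtain ⟨t, β₀, hlβ, hbt⟩ := Nat.exists_eq_pow_mul_and_not_dvd (n := b) (by omega) l hl.ne_one
    have hβ₀ : 1 ≤ β₀ := by
      rcases Nat.eq_zero_or_pos β₀ with h | h
      · rw [h, mul_zero] at hbt
        omega
      · exact h
    have hlb : b < l ^ b := Nat.lt_pow_self hlF
    obtain ⟨J, ε', N₁, hε', hpig⟩ := hPIG b ε (by omega) hε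
    obtain ⟨ε₁', M₁, hε₁', hIH⟩ := ih (min ε ε') (lt_min hε hε')
    have hdm : ∀ m : ℕ, 2 ≤ d ^ (m + 1) := fun m => by
      calc 2 ≤ d := hd
        _ = d ^ 1 := (pow_one d).symm
        _ ≤ d ^ (m + 1) := Nat.pow_le_pow_right (by omega) (by omega)
    choose κ hκ1 hκ using (fun m : ℕ => hPPS l (d ^ (m + 1)) t β₀ hl (hdm m) hβ₀)
    choose MF hMF using (fun m s : ℕ => hFWD l (d ^ (m + 1)) b s M₁ (κ m * (b + 1) + l ^ s) hl)
    obtain ⟨Mt, hMt⟩ : ∃ Mt, Mt = M₁ + (b + 1) + ∑ m ∈ range J, ∑ s ∈ range (d ^ J + 1), MF m s :=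
      ⟨_, rfl⟩
    have hMt1 : M₁ ≤ Mt := by omega
    have hMt2 : b + 1 ≤ Mt := by omega
    have hMt3 : ∀ m < J, ∀ s ≤ d ^ J, MF m s ≤ Mt := by
      intro m hm s hs
      have h1 : MF m s ≤ ∑ s ∈ range (d ^ J + 1), MF m s :=
        Finset.single_le_sum (f := fun s => MF m s) (fun _ _ => Nat.zero_le _)
          (Finset.mem_range.2 (by omega))
      have h2 : ∑ s ∈ range (d ^ J + 1), MF m s ≤
          ∑ m ∈ range J, ∑ s ∈ range (d ^ J + 1), MF m s :=
        Finset.single_le_sum (f := fun m => ∑ s ∈ range (d ^ J + 1), MF m s)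
          (fun _ _ => Nat.zero_le _) (Finset.mem_range.2 hm)
      omega
    refine ⟨min ε₁' (ε / 4), Mt, lt_min hε₁' (by linarith), fun r H => ?_⟩
    obtain ⟨Hρ, hHρ⟩ : ∃ Hρ, Hρ = H + l ^ (r + t) := ⟨_, rfl⟩
    obtain ⟨Na, hNa⟩ := hIH r ((Mt + 1) * (H + l ^ r * b))
    choose HF hHF using (fun m s : ℕ => hMF m s r H)
    choose Nb hNb using (fun m s : ℕ => hIH (r + s) (HF m s))
    obtain ⟨Nc, hNc⟩ := hRIC d (ε / 2) (2 * Hρ) hd (by linarith)
    refine ⟨N₁ + Na + Nc + ∑ m ∈ range J, ∑ s ∈ range (d ^ J + 1), Nb m s +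
      ⌈(8 * (Hρ : ℝ) + 8) / ε⌉₊, ?_⟩
    intro k E _ _ _ _ _ τ D hHT p q hRM n x hSeg hn W hW hWε G hG hred hVa
    have hnb : ∀ m < J, ∀ s ≤ d ^ J, Nb m s ≤ n := by
      intro m hm s hs
      have h1 : Nb m s ≤ ∑ s ∈ range (d ^ J + 1), Nb m s :=
        Finset.single_le_sum (f := fun s => Nb m s) (fun _ _ => Nat.zero_le _)
          (Finset.mem_range.2 (by omega))
      have h2 : ∑ s ∈ range (d ^ J + 1), Nb m s ≤
          ∑ m ∈ range J, ∑ s ∈ range (d ^ J + 1), Nb m s :=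
        Finset.single_le_sum (f := fun m => ∑ s ∈ range (d ^ J + 1), Nb m s)
          (fun _ _ => Nat.zero_le _) (Finset.mem_range.2 hm)
      omega
    have hnε : 8 * (Hρ : ℝ) + 8 ≤ n * ε := by
      have h1 : (8 * (Hρ : ℝ) + 8) / ε ≤ n := (Nat.le_ceil _).trans (by
        have : ⌈(8 * (Hρ : ℝ) + 8) / ε⌉₊ ≤ n := by omega
        exact_mod_cast this)
      rwa [div_le_iff₀ hε] at h1
    have hn0 : (0 : ℝ) ≤ n := Nat.cast_nonneg n
    -- (a)
    rcases hWP E b H (l ^ r) Mt G hG hred with ⟨a, ha, had, hredG⟩ | ⟨-, G', hG', hred', hV'⟩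
    swap
    · rw [hb1] at hG'
      obtain ⟨α, β', γ, W', hW', hcard, hD⟩ := hNa k E τ D hHT p q hRM n x hSeg (by omega) W hW
        ((mul_le_mul_of_nonneg_right (min_le_left _ _) hn0).trans hWε) G' hG' hred' (fun i hi =>
          Va_mono hMt1 (hV' (x i) (tw l r τ (x i)) (by
            rw [PowerSeries.X_dvd_iff, map_sub, tw_cc hHT, PowerSeries.constantCoeff_C,
              sub_self]) (hVa i hi)))
      exact ⟨α, β', γ, W', hW',
        (mul_le_mul_of_nonneg_right (min_le_left _ _) hn0).trans hcard, hD⟩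
    -- the iterate
    obtain ⟨m, hm1, hmJ, hbm, hWm⟩ := hpig n (by omega) W hW hWε
    obtain ⟨m', rfl⟩ : ∃ m', m = m' + 1 := ⟨m - 1, by omega⟩
    have hmJ' : m' < J := by omega
    obtain ⟨hRMm, hitm, -⟩ := hIT E d p q (by omega) hRM (m' + 1)
    obtain ⟨P, hP⟩ : ∃ P, P = (itr d p q (m' + 1)).1 := ⟨_, rfl⟩
    obtain ⟨Q, hQ⟩ : ∃ Q, Q = (itr d p q (m' + 1)).2 := ⟨_, rfl⟩
    rw [← hP, ← hQ] at hRMm
    obtain ⟨⟨s, P₁, Q₁, hs, hP₁, hQ₁, hwr₁⟩, -, -⟩ := hINS l E (d ^ (m' + 1)) P Q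
      (by have := hdm m'; omega) hRMm
    obtain ⟨-, hins2, hins3⟩ := hINS l E d p q (by omega) hRM
    have hsJ : s ≤ d ^ J := by
      have h1 : s < l ^ s := Nat.lt_pow_self hlF
      have h2 : d ^ (m' + 1) ≤ d ^ J := Nat.pow_le_pow_right (by omega) hmJ
      omega
    -- (b)
    rcases hHF m' s k E τ D hHT P Q P₁ Q₁ hRMm hP₁ hQ₁ G a hG ha hredG with
      ⟨A, Qt, hA, hDv⟩ | ⟨-, G', hG', hred', hV'⟩
    swap
    · rw [hb1] at hG'
      obtain ⟨α, β', γ, W', hW', hcard, hD⟩ := hNb m' s k E τ D hHT p q hRM n x hSeg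
        (hnb m' hmJ' s hsJ) (W.filter fun i => i + (m' + 1) ∈ W) ((Finset.filter_subset _ _).trans hW)
        ((mul_le_mul_of_nonneg_right (min_le_right _ _) hn0).trans hWm) G' hG' hred' (fun i hi => by
          rw [Finset.mem_filter] at hi
          obtain ⟨h1, h2⟩ := hitm n x hSeg i (Finset.mem_range.1 (hW hi.2))
          rw [← hQ] at h1 h2
          rw [← hP] at h2
          have h3 := hVa (i + (m' + 1)) hi.2
          rw [h2] at h3
          exact hV' (x i) h1 (Va_mono (hMt3 m' hmJ' s hsJ) (hVa i hi.1))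
            (Va_mono (hMt3 m' hmJ' s hsJ) h3))
      exact ⟨α, β', γ, W', hW'.trans (Finset.filter_subset _ _),
        (mul_le_mul_of_nonneg_right (min_le_left _ _) hn0).trans hcard, hD⟩
    -- (c)
    have hpp : Dv (b + 1) (pp l t β₀ G) := by
      rw [hbt] at hG hredG
      by_cases hwr : wr p q = 0
      · have h1 : m' + 1 ≤ s := hins3 hwr (m' + 1) s P₁ Q₁ (by rw [← hP, ← hP₁])
          (by rw [← hQ, ← hQ₁]) hwr₁
        have h2 : b ≤ m' + 1 := Nat.le_of_dvd (by omega) hbm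
        have h3 : b + 1 ≤ l ^ s := by
          have : l ^ b ≤ l ^ s := Nat.pow_le_pow_right (by omega) (by omega)
          omega
        apply Dv_mono h3
        have h4 : b = l ^ t * β₀ := hbt
        rw [h4] at hDv
        exact hPPI l r s t β₀ H (κ m' * (l ^ t * β₀ + 1) + l ^ s) E (tw l r τ) (fun x => tw_cc hHT x)
          P Q P₁ Q₁ hRMm.co hP₁ hQ₁ hwr₁ G Qt a A hlβ hβ₀ hG ha hredG hA (by omega) hDv
      · have h1 : wr P Q ≠ 0 := by
          rw [hP, hQ]
          exact hins2 hwr (m' + 1)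
        have h2 : s = 0 := by
          by_contra h
          apply h1
          rw [hP₁, hQ₁]
          exact wr_expand h P₁ Q₁
        subst h2
        rw [pow_zero, expand_one] at hP₁ hQ₁
        rw [pow_zero, frP_one, ← hP₁, ← hQ₁] at hDv
        have h4 : b = l ^ t * β₀ := hbt
        rw [h4] at hDv ⊢
        have h5 := hκ m' k E τ D hHT r H (κ m' * (l ^ t * β₀ + 1) + 1) P Q hRMm h1 G Qt A a hG ha
          hredG hA hDv
        apply Dv_mono _ h5
        rw [Nat.le_div_iff_mul_le (hκ1 m')]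
        rw [mul_comm]
        omega
    -- (d)
    obtain ⟨ρ₁, ρ₂, hρ0, hρ1, hρ2, hρ⟩ := hDER l r t β₀ H (b + 1) k E τ D hHT hlβ hβ₀ (by omega) G a
      (by rw [← hbt]; exact hG) ha (by rw [← hbt]; exact hredG) hpp
    rw [← hHρ] at hρ1 hρ2
    obtain ⟨W₁, hW₁⟩ : ∃ W₁, W₁ = W.filter fun i => ρ₂.eval (x i) ≠ 0 := ⟨_, rfl⟩
    have hW₁W : W₁ ⊆ W := hW₁ ▸ Finset.filter_subset _ _
    have hc1 := count_zeros hSeg.inj hW hρ0
    rw [← hW₁] at hc1
    have hc1' : (W.card : ℝ) ≤ W₁.card + Hρ := by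
      have : W.card ≤ W₁.card + Hρ := by omega
      exact_mod_cast this
    have hW₁ε : ε / 2 * n ≤ W₁.card := by linarith
    have hinjW : Set.InjOn x W₁ := by
      intro i hi j hj hij
      exact hSeg.inj i (Finset.mem_range.1 (hW (hW₁W hi))) j (Finset.mem_range.1 (hW (hW₁W hj))) hij
    have hTcard : (W₁.image x).card = W₁.card := Finset.card_image_of_injOn hinjW
    obtain ⟨r₁, r₂, hr0, hr1, hr2, hr⟩ := hDSC l Hρ (r + t) k E τ D hHT ρ₁ ρ₂ (W₁.image x) hρ1 hρ2
      (by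
        rw [hTcard]
        have h1 : (2 * Hρ : ℝ) < W₁.card := by linarith
        exact_mod_cast h1) (by
        intro y hy
        rw [Finset.mem_image] at hy
        obtain ⟨i, hi, rfl⟩ := hy
        have h1 := hi
        rw [hW₁, Finset.mem_filter] at h1
        exact ⟨h1.2, hρ (x i) h1.2 (Va_mono hMt2 (hVa i h1.1))⟩)
    obtain ⟨α, β', γ, hq⟩ := hNc k E D p q hRM n x hSeg (by omega) W₁ (hW₁W.trans hW) hW₁ε r₁ r₂ hr0
      hr1 hr2 (fun i hi => hr (x i) (Finset.mem_image_of_mem x hi))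
    refine ⟨α, β', γ, W₁.filter fun i => r₂.eval (x i) ≠ 0,
      (Finset.filter_subset _ _).trans hW₁W, ?_, fun i hi => ?_⟩
    · have hc2 := count_zeros hSeg.inj (hW₁W.trans hW) hr0
      have hc2' : (W₁.card : ℝ) ≤ (W₁.filter fun i => r₂.eval (x i) ≠ 0).card + 2 * Hρ := by
        have : W₁.card ≤ (W₁.filter fun i => r₂.eval (x i) ≠ 0).card + 2 * Hρ := by omega
        exact_mod_cast this
      have h1 : min ε₁' (ε / 4) * n ≤ ε / 4 * n := mul_le_mul_of_nonneg_right (min_le_right _ _) hn0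
      linarith
    · rw [Finset.mem_filter] at hi
      exact hq i hi.1 hi.2

end Pool.Agent.Q53.SP
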