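import Pool.Agent.Q283.SP.Stm

/-!
# Project SP (helper283), job DES: descent to `F` (odd `p`)
-/

set_option autoImplicit false

namespace Pool.Agent.Q53.SP

open NumberField IsDedekindDomain
open Pool.Agent.Q283.LS (Dec Inr)
open Pool.Agent.Q283.SP
open Pool.Agent.Q7.LK (IsPow)

/-- independence modulo the multiples of `u` is linear independence in the quotient -/
theorem ind_iff {p : ℕ} [Fact p.Prime] {X : Type} (u : X → ℤ_[p]) {t : ℕ} (f : Fin t → X → ℤ_[p]) :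
    (∀ a : Fin t → ℤ_[p], (∃ b : ℤ_[p], ∀ σ, ∑ i, a i * f i σ = u σ * b) → a = 0) ↔
      LinearIndependent ℤ_[p] (fun i => (Submodule.span ℤ_[p] {u}).mkQ (f i)) := by
  have key : ∀ a : Fin t → ℤ_[p], (∑ i, a i • (Submodule.span ℤ_[p] {u}).mkQ (f i) = 0) ↔
      ∃ b : ℤ_[p], ∀ σ, ∑ i, a i * f i σ = u σ * b := by
    intro a
    have h1 : ∑ i, a i • (Submodule.span ℤ_[p] {u}).mkQ (f i) =
        (Submodule.span ℤ_[p] {u}).mkQ (∑ i, a i • f i) := by
      simp only [map_sum, map_smul]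
    rw [h1, Submodule.mkQ_apply, Submodule.Quotient.mk_eq_zero, Submodule.mem_span_singleton]
    constructor
    · rintro ⟨b, hb⟩
      refine ⟨b, fun σ => ?_⟩
      have := congrFun hb σ
      simp only [Pi.smul_apply, smul_eq_mul, Finset.sum_apply] at this
      rw [← this, mul_comm]
    · rintro ⟨b, hb⟩
      refine ⟨b, ?_⟩
      funext σ
      simp only [Pi.smul_apply, smul_eq_mul, Finset.sum_apply]
      rw [hb σ, mul_comm]
  rw [Fintype.linearIndependent_iff]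
  constructor
  · intro h a ha i
    exact congrFun (h a ((key a).1 ha)) i
  · intro h a ha
    funext i
    exact h a ((key a).2 ha) i

section

variable {Ω : Type} [Field Ω] [CharZero Ω] {p : ℕ} [Fact p.Prime]

theorem insha_zero (S : Set ℕ) {H : Subgroup (Ω ≃ₐ[ℚ] Ω)} (ρ : H → ℤ_[p]) :
    InSha S ρ (0 : H → ℤ_[p]) where
  coc := ⟨continuous_const, fun σ τ => by simp⟩
  unr := fun l _ _ j σ _ => rfl
  loc := fun l _ _ j => ⟨0, fun σ _ => by simp⟩

theorem insha_add {S : Set ℕ} {H : Subgroup (Ω ≃ₐ[ℚ] Ω)} {ρ f g : H → ℤ_[p]}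
    (hf : InSha S ρ f) (hg : InSha S ρ g) : InSha S ρ (f + g) where
  coc := ⟨hf.coc.cont.add hg.coc.cont, fun σ τ => by
    simp only [Pi.add_apply, hf.coc.coc σ τ, hg.coc.coc σ τ]; ring⟩
  unr := fun l _ hl j σ hσ => by
    simp only [Pi.add_apply, hf.unr l hl j σ hσ, hg.unr l hl j σ hσ, add_zero]
  loc := fun l _ hl j => by
    obtain ⟨b, hb⟩ := hf.loc l hl j
    obtain ⟨c, hc⟩ := hg.loc l hl j
    refine ⟨b + c, fun σ hσ => ?_⟩
    simp only [Pi.add_apply, hb σ hσ, hc σ hσ]; ring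

theorem insha_smul {S : Set ℕ} {H : Subgroup (Ω ≃ₐ[ℚ] Ω)} {ρ f : H → ℤ_[p]} (a : ℤ_[p])
    (hf : InSha S ρ f) : InSha S ρ (a • f) where
  coc := ⟨hf.coc.cont.const_smul a, fun σ τ => by
    simp only [Pi.smul_apply, smul_eq_mul, hf.coc.coc σ τ]; ring⟩
  unr := fun l _ hl j σ hσ => by
    simp only [Pi.smul_apply, hf.unr l hl j σ hσ, smul_zero]
  loc := fun l _ hl j => by
    obtain ⟨b, hb⟩ := hf.loc l hl j
    refine ⟨a * b, fun σ hσ => ?_⟩
    simp only [Pi.smul_apply, smul_eq_mul, hb σ hσ]; ring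

theorem insha_span {S : Set ℕ} {H : Subgroup (Ω ≃ₐ[ℚ] Ω)} {ρ : H → ℤ_[p]} {n : ℕ}
    {f : Fin n → H → ℤ_[p]} (hf : ∀ i, InSha S ρ (f i)) {g : H → ℤ_[p]}
    (hg : g ∈ Submodule.span ℤ_[p] (Set.range f)) : InSha S ρ g := by
  induction hg using Submodule.span_induction with
  | mem y hy => obtain ⟨i, rfl⟩ := hy; exact hf i
  | zero => exact insha_zero S ρ
  | add y z _ _ hy hz => exact insha_add hy hz
  | smul a y _ hy => exact insha_smul a hy

end

/-- elements of the span of the images lift to the span -/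
theorem lift_span {p : ℕ} [Fact p.Prime] {M : Type} [AddCommGroup M] [Module ℤ_[p] M]
    (P : Submodule ℤ_[p] M) {n : ℕ} (f : Fin n → M) (y : M ⧸ P)
    (hy : y ∈ Submodule.span ℤ_[p] (Set.range fun i => P.mkQ (f i))) :
    ∃ z ∈ Submodule.span ℤ_[p] (Set.range f), P.mkQ z = y := by
  have h1 : (Set.range fun i => P.mkQ (f i)) = P.mkQ '' (Set.range f) := by
    rw [← Set.range_comp]; rfl
  rw [h1, ← Submodule.map_span] at hy
  obtain ⟨z, hz, hzy⟩ := Submodule.mem_map.1 hy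
  exact ⟨z, hz, hzy⟩

/-! ## The character and the exponent -/

section

variable {Ω : Type} [Field Ω] [CharZero Ω]

theorem chi_mul (p : ℕ) [Fact p.Prime] (σ τ : Ω ≃ₐ[ℚ] Ω) : chi p (σ * τ) = chi p σ * chi p τ := by
  unfold chi
  have h : ((σ * τ : Ω ≃ₐ[ℚ] Ω) : Ω ≃+* Ω) = (σ : Ω ≃+* Ω) * (τ : Ω ≃+* Ω) := rfl
  rw [h, map_mul, Units.val_mul]

theorem chi_cont (p : ℕ) [Fact p.Prime] : Continuous (chi p : (Ω ≃ₐ[ℚ] Ω) → ℤ_[p]) := by
  have h := cyclotomicCharacter.continuous p ℚ Ω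
  exact Units.continuous_val.comp h

theorem eval_lc [Algebra.IsAlgebraic ℚ Ω] (x : Ω) :
    IsLocallyConstant fun σ : Ω ≃ₐ[ℚ] Ω => σ x := by
  rw [IsLocallyConstant.iff_exists_open]
  intro σ
  have : FiniteDimensional ℚ (IntermediateField.adjoin ℚ {x}) :=
    IntermediateField.adjoin.finiteDimensional (Algebra.IsIntegral.isIntegral x)
  refine ⟨(fun τ => σ⁻¹ * τ) ⁻¹' ((IntermediateField.adjoin ℚ {x}).fixingSubgroup : Set (Ω ≃ₐ[ℚ] Ω)),
    (IntermediateField.fixingSubgroup_isOpen _).preimage (continuous_const_mul _), ?_, ?_⟩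
  · simp only [Set.mem_preimage, inv_mul_cancel, SetLike.mem_coe]
    exact one_mem _
  · intro τ hτ
    have h1 := (IntermediateField.mem_fixingSubgroup_iff _ _).1 hτ x
      (IntermediateField.mem_adjoin_simple_self ℚ x)
    have h2 : τ x = σ ((σ⁻¹ * τ) x) := by
      change τ x = (σ * (σ⁻¹ * τ)) x
      rw [mul_inv_cancel_left]
    rw [h2, h1]

theorem ex_lc {p : ℕ} [Fact p.Prime] [Algebra.IsAlgebraic ℚ Ω] (ζ x : Ω) :
    IsLocallyConstant fun σ : Ω ≃ₐ[ℚ] Ω => (ex ζ x σ : ZMod p) := by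
  classical
  have h : (fun σ : Ω ≃ₐ[ℚ] Ω => (ex ζ x σ : ZMod p)) =
      (fun y : Ω => if h : ∃ s : ZMod p, y = ζ ^ s.val * x then h.choose else 0) ∘
        fun σ : Ω ≃ₐ[ℚ] Ω => σ x := by
    funext σ
    simp only [ex, Function.comp_apply]
    congr
  rw [h]
  exact (eval_lc x).comp _

omit [CharZero Ω] in
theorem pow_val {p : ℕ} [Fact p.Prime] {ζ : Ω} (hζ : ζ ^ p = 1) (s t : ZMod p) :
    ζ ^ (s + t).val = ζ ^ s.val * ζ ^ t.val := by
  have : NeZero p := ⟨(Fact.out : p.Prime).ne_zero⟩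
  rw [ZMod.val_add, ← pow_add, ← pow_mod_orderOf ζ ((s.val + t.val) % p),
    Nat.mod_mod_of_dvd _ (orderOf_dvd_of_pow_eq_one hζ), pow_mod_orderOf]

theorem ex_spec {p : ℕ} [Fact p.Prime] {F : IntermediateField ℚ Ω} {ζ d : F} {x : Ω}
    (hζ : IsPrimitiveRoot ζ p) (hx : x ^ p = (d : Ω)) (hx0 : x ≠ 0) {σ : Ω ≃ₐ[ℚ] Ω}
    (hσ : σ ∈ F.fixingSubgroup) : σ x = (ζ : Ω) ^ (ex (ζ : Ω) x σ : ZMod p).val * x := by
  have hp : 0 < p := (Fact.out : p.Prime).pos
  have : NeZero p := ⟨hp.ne'⟩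
  have hζ' : IsPrimitiveRoot (ζ : Ω) p := hζ.map_of_injective (f := F.val) F.val.injective
  have h1 : (σ x / x) ^ p = 1 := by
    rw [div_pow, ← map_pow, hx, (IntermediateField.mem_fixingSubgroup_iff _ _).1 hσ d d.2, ← hx]
    exact div_self (pow_ne_zero _ hx0)
  obtain ⟨i, hi, hi2⟩ := hζ'.eq_pow_of_pow_eq_one h1
  have h2 : ∃ s : ZMod p, σ x = (ζ : Ω) ^ s.val * x := by
    refine ⟨(i : ZMod p), ?_⟩
    rw [ZMod.val_natCast, Nat.mod_eq_of_lt hi, hi2, div_mul_cancel₀ _ hx0]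
  have h3 : (ex (ζ : Ω) x σ : ZMod p) = h2.choose := by
    unfold ex
    rw [dif_pos h2]
  rw [h3]
  exact h2.choose_spec

theorem ex_unique {p : ℕ} [Fact p.Prime] {F : IntermediateField ℚ Ω} {ζ d : F} {x : Ω}
    (hζ : IsPrimitiveRoot ζ p) (hx : x ^ p = (d : Ω)) (hx0 : x ≠ 0) {σ : Ω ≃ₐ[ℚ] Ω}
    (hσ : σ ∈ F.fixingSubgroup) {s : ZMod p} (h : σ x = (ζ : Ω) ^ s.val * x) :
    ex (ζ : Ω) x σ = s := by
  have hp : 0 < p := (Fact.out : p.Prime).pos
  have : NeZero p := ⟨hp.ne'⟩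
  have hζ' : IsPrimitiveRoot (ζ : Ω) p := hζ.map_of_injective (f := F.val) F.val.injective
  rw [ex_spec hζ hx hx0 hσ] at h
  have h2 := mul_right_cancel₀ hx0 h
  exact ZMod.val_injective p (hζ'.pow_inj (ZMod.val_lt _) (ZMod.val_lt _) h2)

theorem ex_mul {p : ℕ} [Fact p.Prime] {F : IntermediateField ℚ Ω} {ζ d : F} {x : Ω}
    (hζ : IsPrimitiveRoot ζ p) (hx : x ^ p = (d : Ω)) (hx0 : x ≠ 0) {σ τ : Ω ≃ₐ[ℚ] Ω}
    (hσ : σ ∈ F.fixingSubgroup) (hτ : τ ∈ F.fixingSubgroup) :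
    (ex (ζ : Ω) x (σ * τ) : ZMod p) = ex (ζ : Ω) x σ + ex (ζ : Ω) x τ := by
  apply ex_unique hζ hx hx0 (mul_mem hσ hτ)
  have hζ' : (ζ : Ω) ^ p = 1 := by
    have := congrArg (fun z : F => (z : Ω)) hζ.pow_eq_one
    simpa using this
  have h1 : (σ * τ) x = σ (τ x) := rfl
  rw [h1, ex_spec hζ hx hx0 hτ, map_mul, map_pow, ex_spec hζ hx hx0 hσ,
    (IntermediateField.mem_fixingSubgroup_iff _ _).1 hσ ζ ζ.2, pow_val hζ']
  ring

end

/-! ## The action -/

section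

variable {Ω : Type} [Field Ω] [CharZero Ω] {p : ℕ} [Fact p.Prime] {H : Subgroup (Ω ≃ₐ[ℚ] Ω)}
  (ρ : H → ℤ_[p]) (s : H → ZMod p)

theorem act_apply (σ : H) (m : ZMod p → ℤ_[p]) (i : ZMod p) :
    act ρ s σ m i = ρ σ * m (i - s σ) := rfl

theorem act_sum (σ : H) (m : ZMod p → ℤ_[p]) : ∑ i, act ρ s σ m i = ρ σ * ∑ i, m i := by
  simp only [act_apply]
  rw [← Finset.mul_sum]
  exact congrArg (ρ σ * ·) (Equiv.sum_comp (Equiv.subRight (s σ)) m)

theorem act_sub (σ : H) (m n : ZMod p → ℤ_[p]) : act ρ s σ (m - n) = act ρ s σ m - act ρ s σ n := by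
  funext i
  simp only [act_apply, Pi.sub_apply]
  ring

theorem act_smul (σ : H) (c : ℤ_[p]) (m : ZMod p → ℤ_[p]) : act ρ s σ (c • m) = c • act ρ s σ m := by
  funext i
  simp only [act_apply, Pi.smul_apply, smul_eq_mul]
  ring

variable {ρ s}

theorem act_mul (hρ : ∀ σ τ, ρ (σ * τ) = ρ σ * ρ τ) (hs : ∀ σ τ, s (σ * τ) = s σ + s τ) (σ τ : H)
    (m : ZMod p → ℤ_[p]) : act ρ s (σ * τ) m = act ρ s σ (act ρ s τ m) := by
  funext i
  simp only [act_apply, hρ, hs, sub_add_eq_sub_sub]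
  ring

/-- coboundaries are cocycles -/
theorem cob_coc (hρ : ∀ σ τ, ρ (σ * τ) = ρ σ * ρ τ) (hs : ∀ σ τ, s (σ * τ) = s σ + s τ)
    (hρc : Continuous ρ) (hsc : IsLocallyConstant s) (m : ZMod p → ℤ_[p]) :
    IsCocV ρ s fun σ => act ρ s σ m - m where
  cont := by
    refine Continuous.sub ?_ continuous_const
    refine continuous_pi fun i => ?_
    simp only [act_apply]
    refine hρc.mul ?_
    exact (hsc.comp fun t => m (i - t)).continuous
  coc := fun σ τ => by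
    simp only [act_mul hρ hs, act_sub]
    abel

theorem cocV_sub {f g : H → ZMod p → ℤ_[p]} (hf : IsCocV ρ s f) (hg : IsCocV ρ s g) :
    IsCocV ρ s fun σ => f σ - g σ where
  cont := hf.cont.sub hg.cont
  coc := fun σ τ => by
    simp only [hf.coc, hg.coc, act_sub]
    abel

end

theorem des (hCOR : S_COR) (hLA3 : S_LA3) (hNT : S_NT) : S_DES := by
  intro p _ hp2 Ω _ _ _ _ F _ ζ d x hζ hx hd S r s t hpS hr hns hrank
  obtain ⟨V, hV1, hV2, hV3⟩ := hCOR p hp2 Ω F ζ d x hζ hx hd S r hpS hr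
  obtain ⟨f, hf, hfi⟩ := hrank
  have hp0 : p ≠ 0 := (Fact.out : p.Prime).ne_zero
  have hx0 : x ≠ 0 := by
    rintro rfl
    apply hd
    refine ⟨0, ?_⟩
    rw [zero_pow hp0] at hx ⊢
    exact Subtype.ext hx.symm
  set ρ : F.fixingSubgroup → ℤ_[p] := fun σ => chi p σ.1 ^ r with hρdef
  set e : F.fixingSubgroup → ZMod p := fun σ => ex (ζ : Ω) x σ.1 with hedef
  have hρm : ∀ σ τ, ρ (σ * τ) = ρ σ * ρ τ := fun σ τ => by
    simp only [hρdef, Subgroup.coe_mul, chi_mul, mul_pow]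
  have hρc : Continuous ρ := ((chi_cont p).comp continuous_subtype_val).pow r
  have hem : ∀ σ τ, e (σ * τ) = e σ + e τ := fun σ τ => ex_mul hζ hx hx0 σ.2 τ.2
  have hec : IsLocallyConstant e := (ex_lc (ζ : Ω) x).comp_continuous continuous_subtype_val
  set uH : (F ⊔ IntermediateField.adjoin ℚ {x}).fixingSubgroup → ℤ_[p] :=
    fun σ => chi p σ.1 ^ r - 1 with huH
  set uG : F.fixingSubgroup → ℤ_[p] := fun σ => chi p σ.1 ^ r - 1 with huG
  set P := Submodule.span ℤ_[p] {uH} with hP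
  set Q := Submodule.span ℤ_[p] {uG} with hQ
  let C : ((F ⊔ IntermediateField.adjoin ℚ {x}).fixingSubgroup → ℤ_[p]) →ₗ[ℤ_[p]]
      (F.fixingSubgroup → ℤ_[p]) :=
    { toFun := fun f σ => ∑ i, V f σ i
      map_add' := fun f g => by
        funext σ
        simp only [map_add, Pi.add_apply, Finset.sum_add_distrib]
      map_smul' := fun c f => by
        funext σ
        simp only [map_smul, Pi.smul_apply, smul_eq_mul, RingHom.id_apply, Finset.mul_sum] }
  have hCapp : ∀ f σ, C f σ = ∑ i, V f σ i := fun f σ => rfl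
  have hPQ : P ≤ Q.comap C := by
    rw [hP, Submodule.span_le, Set.singleton_subset_iff]
    obtain ⟨v, hv⟩ := hV2 1
    have : C uH = (∑ i, v i) • uG := by
      have h1 : (fun σ : (F ⊔ IntermediateField.adjoin ℚ {x}).fixingSubgroup =>
          (chi p σ.1 ^ r - 1) * (1 : ℤ_[p])) = uH := by
        funext σ; simp [huH]
      rw [h1] at hv
      funext σ
      rw [hCapp]
      have h2 : ∀ i, V uH σ i = act ρ e σ v i - v i := fun i => by rw [hv σ]; rfl
      simp only [h2, Finset.sum_sub_distrib, act_sum, huG, Pi.smul_apply, smul_eq_mul, hρdef]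
      ring
    rw [SetLike.mem_coe, Submodule.mem_comap, this]
    exact Submodule.smul_mem _ _ (Submodule.mem_span_singleton_self _)
  have hli : LinearIndependent ℤ_[p] (fun i => P.mkQ (f i)) := (ind_iff uH f).1 hfi
  obtain ⟨b, hb, hb2⟩ := hLA3 p _ _ (P.mapQ Q C hPQ) s t (fun i => P.mkQ (f i)) hli (by
    rintro ⟨y, hy, hyi⟩
    choose z hz hzy using fun i => lift_span P f (y i) (hy i)
    apply hns
    refine ⟨fun i => C (z i), fun i => (hV1 _ (insha_span hf (hz i))).1, ?_⟩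
    have h1 : LinearIndependent ℤ_[p] (fun i => Q.mkQ (C (z i))) := by
      have h2 : (fun i => (P.mapQ Q C hPQ) (y i)) = fun i => Q.mkQ (C (z i)) := by
        funext i
        rw [← hzy i]
        rfl
      rw [← h2]; exact hyi
    exact (ind_iff uG _).2 h1)
  choose c hc hcb using fun i => lift_span P f (b i) (hb2 i).1
  have hβ : ∀ i, ∃ β : ℤ_[p], ∀ σ : F.fixingSubgroup, C (c i) σ = (ρ σ - 1) * β := by
    intro i
    have h1 := (hb2 i).2
    rw [← hcb i] at h1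
    have h2 : C (c i) ∈ Q := (Submodule.Quotient.mk_eq_zero Q).1 h1
    obtain ⟨β, hβ⟩ := Submodule.mem_span_singleton.1 h2
    refine ⟨β, fun σ => ?_⟩
    rw [← hβ]
    simp only [huG, Pi.smul_apply, smul_eq_mul, hρdef]
    ring
  choose β hβ using hβ
  set δ : Fin t → ZMod p → ℤ_[p] := fun i => Pi.single 0 (β i) with hδdef
  have hδs : ∀ i, ∑ k, δ i k = β i := fun i => by
    simp only [hδdef, Finset.sum_pi_single']
    simp
  have hδ0 : ∀ i, δ i 0 = β i := fun i => by simp only [hδdef, Pi.single_eq_same]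
  refine ⟨fun i σ => V (c i) σ - (act ρ e σ (δ i) - δ i), fun i => ?_, ?_⟩
  · have hin := hV1 _ (insha_span hf (hc i))
    have hsum : ∀ σ, ∑ k, (V (c i) σ - (act ρ e σ (δ i) - δ i)) k = 0 := by
      intro σ
      simp only [Pi.sub_apply, Finset.sum_sub_distrib]
      rw [act_sum, hδs, ← hCapp, hβ i σ]
      ring
    refine ⟨cocV_sub hin.2.1 (cob_coc hρm hem hρc hec _), hsum, ?_⟩
    intro l _ j
    obtain ⟨n, v, hn, hv⟩ := hin.2.2 l j
    have hv' : ∀ σ : F.fixingSubgroup, Dec j σ.1 →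
        n • (V (c i) σ - (act ρ e σ (δ i) - δ i)) =
          act ρ e σ (v - n • δ i) - (v - n • δ i) := by
      intro σ hσ
      rw [smul_sub, hv σ hσ, act_sub, act_smul, smul_sub]
      abel
    refine ⟨n, v - n • δ i, hn, ?_, hv'⟩
    obtain ⟨σ, hσF, hσD, hσ1⟩ := hNT p Ω F l j r hr
    have h1 := hv' ⟨σ, hσF⟩ hσD
    have h2 := congrArg (fun m : ZMod p → ℤ_[p] => ∑ k, m k) h1
    simp only [Pi.smul_apply, smul_eq_mul] at h2
    rw [← Finset.mul_sum, hsum, mul_zero] at h2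
    have h3 : ∑ k, (act ρ e ⟨σ, hσF⟩ (v - n • δ i) -
        (v - n • δ i)) k = (chi p σ ^ r - 1) * ∑ k, (v - n • δ i) k := by
      have h5 : ∀ m : ZMod p → ℤ_[p], ∑ k, (act ρ e ⟨σ, hσF⟩ m - m) k =
          (chi p σ ^ r - 1) * ∑ k, m k := fun m => by
        simp only [Pi.sub_apply, Finset.sum_sub_distrib]
        rw [act_sum]
        simp only [hρdef]
        ring
      exact h5 _
    rw [h3] at h2
    rcases mul_eq_zero.1 h2.symm with h4 | h4
    · exact absurd (sub_eq_zero.1 h4) hσ1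
    · exact h4
  · rintro a ⟨v, hv⟩
    have hbl : LinearIndependent ℤ_[p] (fun i => P.mkQ (c i)) := by
      have : (fun i => P.mkQ (c i)) = b := funext hcb
      rw [this]; exact hb
    refine (ind_iff uH c).2 hbl a ⟨v 0 + ∑ i, a i * β i, fun σ => ?_⟩
    have hle : F ≤ F ⊔ IntermediateField.adjoin ℚ {x} := le_sup_left
    have hσ : σ.1 ∈ F.fixingSubgroup := IntermediateField.fixingSubgroup_antitone hle σ.2
    have hxm : x ∈ F ⊔ IntermediateField.adjoin ℚ {x} :=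
      (le_sup_right : IntermediateField.adjoin ℚ {x} ≤ F ⊔ IntermediateField.adjoin ℚ {x})
        (IntermediateField.mem_adjoin_simple_self ℚ x)
    have hσx : σ.1 x = x := (IntermediateField.mem_fixingSubgroup_iff _ _).1 σ.2 x hxm
    have he0 : e ⟨σ.1, hσ⟩ = 0 := by
      apply ex_unique hζ hx hx0 hσ
      rw [ZMod.val_zero, pow_zero, one_mul]
      exact hσx
    have h4 := congrFun (hv ⟨σ.1, hσ⟩) 0
    simp only [Finset.sum_apply, Pi.smul_apply, Pi.sub_apply, smul_eq_mul, act_apply, he0, sub_zero,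
      hδ0, hV3 (c _) σ ⟨σ.1, hσ⟩ rfl] at h4
    have h7 : ∑ i, a i * (c i σ - (ρ ⟨σ.1, hσ⟩ * β i - β i)) =
        ∑ i, a i * c i σ - (chi p σ.1 ^ r - 1) * ∑ i, a i * β i := by
      rw [Finset.mul_sum, ← Finset.sum_sub_distrib]
      exact Finset.sum_congr rfl fun i _ => by simp only [hρdef]; ring
    rw [h7] at h4
    simp only [huH]
    simp only [hρdef] at h4
    linear_combination h4

end Pool.Agent.Q53.SP
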