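import Pool.Agent.Q53.SP.Mvt

/-!
# Project SP (helper62), job 19: norms of the cells and sensors and of their differences
-/

set_option autoImplicit false

open MeasureTheory Set Filter Topology
open scoped ContDiff
open H459R3.NS (V pd Per cube)

namespace Pool.Agent.Q53.SP

open Pool.Agent.Q62.SP

attribute [local instance] instMeasureSpaceUnitAddCircle

theorem int_shift' {f : V → ℝ} (hp : Per f) (a : V) :
    ∫ x in cube, f (x + a) = ∫ x in cube, f x := by
  set F : UnitAddTorus (Fin 3) → ℝ := fun t => f (Function.surjInv H459R3.NS.cov_surj t) with hF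
  have e1 : ∀ x, F (H459R3.NS.cov x) = f x := fun x =>
    hp.eq_of_cov (Function.surjInv_eq H459R3.NS.cov_surj (H459R3.NS.cov x))
  have e2 : ∀ x, F (H459R3.NS.cov a + H459R3.NS.cov x) = f (x + a) := by
    intro x
    have : H459R3.NS.cov a + H459R3.NS.cov x = H459R3.NS.cov (x + a) := by
      funext i
      simp [H459R3.NS.cov, add_comm]
    rw [this, e1]
  have h1 := H459R3.NS.integral_torus (fun t => F (H459R3.NS.cov a + t))
  have h2 := H459R3.NS.integral_torus F
  have : Measure.IsAddHaarMeasure (volume : Measure UnitAddCircle) :=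
    inferInstanceAs (Measure.IsAddHaarMeasure AddCircle.haarAddCircle)
  have h0 : Measure.IsAddLeftInvariant (volume : Measure (UnitAddTorus (Fin 3))) :=
    inferInstanceAs (Measure.IsAddLeftInvariant
      (Measure.pi fun _ : Fin 3 => (volume : Measure UnitAddCircle)))
  rw [integral_add_left_eq_self] at h1
  rw [h1] at h2
  simp_rw [e1, e2] at h2
  exact h2

theorem SS_per (N : ℝ) (n : ℕ) (i : Fin 3) (x : V) : x + Pi.single i 1 ∈ SS N n ↔ x ∈ SS N n := by
  have key : ∀ j, xi N ((x + (Pi.single i 1 : V)) j) = xi N (x j) := by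
    intro j
    by_cases h : j = i
    · subst h
      simp [xi, Int.fract_add_one]
    · simp [xi, Pi.single_eq_of_ne h]
  simp only [SS, Set.mem_ofPred_eq, key]

/-- the indicator function of `SS N n` -/
noncomputable def iS (N : ℝ) (n : ℕ) : V → ℝ := (SS N n).indicator 1

theorem iS_nonneg (N : ℝ) (n : ℕ) (x : V) : 0 ≤ iS N n x := by
  unfold iS
  exact indicator_nonneg (fun _ _ => zero_le_one) x

theorem iS_per (N : ℝ) (n : ℕ) : Per (iS N n) := by
  intro i x
  unfold iS
  by_cases h : x ∈ SS N n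
  · rw [indicator_of_mem h, indicator_of_mem ((SS_per N n i x).2 h)]
    rfl
  · rw [indicator_of_notMem h, indicator_of_notMem (fun h' => h ((SS_per N n i x).1 h'))]

section

variable (hp : S_VOL) {N : ℝ} (hN : 198 ≤ N) (n : ℕ)

include hp hN

theorem iS_meas (a : V) : Measurable fun x => iS N n (x + a) := by
  have h : Measurable (iS N n) := (measurable_one).indicator (hp N hN n).1
  exact h.comp (measurable_id.add_const a)

theorem iS_int (a : V) : IntegrableOn (fun x => iS N n (x + a)) cube := by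
  have := H459R3.NS.cube_finite
  refine Integrable.mono' (g := fun _ => (1 : ℝ)) (integrable_const _)
    (iS_meas hp hN n a).aestronglyMeasurable (Eventually.of_forall fun x => ?_)
  unfold iS
  refine (norm_indicator_le_norm_self _ _).trans ?_
  simp

theorem iS_val (a : V) : ∫ x in cube, iS N n (x + a) ≤ (132 / (N * 2 ^ n)) ^ 2 := by
  rw [int_shift' (iS_per N n) a]
  unfold iS
  rw [integral_indicator_one (hp N hN n).1, measureReal_restrict_apply (hp N hN n).1, inter_comm]
  exact (hp N hN n).2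

/-- the bounds for one field -/
theorem fld {e : V → V} (hs : ContDiff ℝ ∞ e) (hper : Per e) {B G : ℝ} (hB : ∀ x i, |e x i| ≤ B)
    (hG : ∀ x i j, |pd j (fun y => e y i) x| ≤ G) (hS : ∀ x, e x ≠ 0 → x ∈ SS N n) :
    ip e e ≤ 3 * B ^ 2 * (132 / (N * 2 ^ n)) ^ 2 ∧ ∀ h : V,
      ip (fun x => e (x + h) - e x) (fun x => e (x + h) - e x) ≤
          12 * B ^ 2 * (132 / (N * 2 ^ n)) ^ 2 ∧
        ip (fun x => e (x + h) - e x) (fun x => e (x + h) - e x) ≤
          54 * G ^ 2 * ‖h‖ ^ 2 * (132 / (N * 2 ^ n)) ^ 2 := by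
  have hB0 : 0 ≤ B := (abs_nonneg _).trans (hB 0 0)
  have hG0 : 0 ≤ G := (abs_nonneg _).trans (hG 0 0 0)
  have hc : ∀ i, Continuous fun x => e x i := fun i => ((contDiff_pi.1 hs) i).continuous
  have hcs : ∀ (h : V) i, Continuous fun x => e (x + h) i := fun h i =>
    (hc i).comp (continuous_add_const h)
  have h1 : ∀ i, ContDiff ℝ 1 fun x => e x i := fun i =>
    ((contDiff_pi.1 hs) i).of_le (by norm_cast)
  -- the square of the field
  have b1 : ∀ x, ∑ i, e x i * e x i ≤ 3 * B ^ 2 * iS N n (x + 0) := by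
    intro x
    rw [add_zero]
    by_cases hx : e x = 0
    · rw [hx]
      simp only [Pi.zero_apply, mul_zero, Finset.sum_const_zero]
      exact mul_nonneg (by positivity) (iS_nonneg N n x)
    · have h2 : iS N n x = 1 := by
        unfold iS
        rw [indicator_of_mem (hS x hx)]
        rfl
      rw [h2, mul_one, Fin.sum_univ_three]
      have h3 : ∀ i, e x i * e x i ≤ B ^ 2 := fun i => by
        rw [← abs_mul_abs_self, sq]
        exact mul_le_mul (hB x i) (hB x i) (abs_nonneg _) hB0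
      linarith [h3 0, h3 1, h3 2]
  have i1 : IntegrableOn (fun x => ∑ i, e x i * e x i) cube :=
    H459R3.NS.integrableOn_cube (continuous_finsetSum _ fun i _ => (hc i).mul (hc i))
  have c1 : ip e e ≤ 3 * B ^ 2 * (132 / (N * 2 ^ n)) ^ 2 := by
    unfold ip
    refine (integral_mono i1 ((iS_int hp hN n 0).const_mul _) b1).trans ?_
    rw [integral_const_mul]
    exact mul_le_mul_of_nonneg_left (iS_val hp hN n 0) (by positivity)
  refine ⟨c1, fun h => ?_⟩
  have iD : IntegrableOn (fun x => ∑ i, (e (x + h) - e x) i * (e (x + h) - e x) i) cube := by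
    refine H459R3.NS.integrableOn_cube (continuous_finsetSum _ fun i _ => ?_)
    simp only [Pi.sub_apply]
    exact ((hcs h i).sub (hc i)).mul ((hcs h i).sub (hc i))
  constructor
  · have b2 : ∀ x, ∑ i, (e (x + h) - e x) i * (e (x + h) - e x) i ≤
        2 * (∑ i, e (x + h) i * e (x + h) i) + 2 * ∑ i, e x i * e x i := by
      intro x
      rw [Finset.mul_sum, Finset.mul_sum, ← Finset.sum_add_distrib]
      refine Finset.sum_le_sum fun i _ => ?_
      simp only [Pi.sub_apply]
      nlinarith [sq_nonneg (e (x + h) i + e x i)]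
    have i2 : IntegrableOn (fun x => ∑ i, e (x + h) i * e (x + h) i) cube :=
      H459R3.NS.integrableOn_cube (continuous_finsetSum _ fun i _ => (hcs h i).mul (hcs h i))
    have h3 : ∫ x in cube, ∑ i, e (x + h) i * e (x + h) i = ip e e := by
      unfold ip
      exact int_shift' (f := fun x => ∑ i, e x i * e x i) (fun i x => by simp only [hper i x]) h
    have h4 : ip (fun x => e (x + h) - e x) (fun x => e (x + h) - e x) ≤
        2 * ip e e + 2 * ip e e := by
      have h5 : ∫ x in cube, (2 * (∑ i, e (x + h) i * e (x + h) i) + 2 * ∑ i, e x i * e x i) =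
          2 * ip e e + 2 * ip e e := by
        rw [integral_add (i2.const_mul 2) (i1.const_mul 2), integral_const_mul, integral_const_mul, h3]
        rfl
      rw [← h5]
      exact integral_mono iD ((i2.const_mul 2).add (i1.const_mul 2)) b2
    nlinarith
  · have b3 : ∀ x, ∑ i, (e (x + h) - e x) i * (e (x + h) - e x) i ≤
        27 * G ^ 2 * ‖h‖ ^ 2 * (iS N n (x + h) + iS N n (x + 0)) := by
      intro x
      rw [add_zero]
      have p1 := iS_nonneg N n (x + h)
      have p2 := iS_nonneg N n x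
      by_cases hx : e (x + h) = 0 ∧ e x = 0
      · rw [hx.1, hx.2]
        simp only [sub_zero, Pi.zero_apply, mul_zero, Finset.sum_const_zero]
        positivity
      · have h2 : 1 ≤ iS N n (x + h) + iS N n x := by
          by_cases hx1 : e (x + h) = 0
          · have hx2 : e x ≠ 0 := fun h' => hx ⟨hx1, h'⟩
            have : iS N n x = 1 := by
              unfold iS
              rw [indicator_of_mem (hS x hx2)]
              rfl
            linarith
          · have : iS N n (x + h) = 1 := by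
              unfold iS
              rw [indicator_of_mem (hS _ hx1)]
              rfl
            linarith
        have h3 : ∀ i, (e (x + h) - e x) i * (e (x + h) - e x) i ≤ (3 * G * ‖h‖) ^ 2 := fun i => by
          have h4 := mv (h1 i) (fun x j => hG x i j) x (x + h)
          rw [add_sub_cancel_left] at h4
          rw [← abs_mul_abs_self, sq]
          exact mul_le_mul h4 h4 (abs_nonneg _) (by positivity)
        calc ∑ i, (e (x + h) - e x) i * (e (x + h) - e x) i
            ≤ ∑ _i : Fin 3, (3 * G * ‖h‖) ^ 2 := Finset.sum_le_sum fun i _ => h3 i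
          _ = 27 * G ^ 2 * ‖h‖ ^ 2 * 1 := by simp; ring
          _ ≤ _ := mul_le_mul_of_nonneg_left h2 (by positivity)
    have i3 := (((iS_int hp hN n h).add (iS_int hp hN n 0)).const_mul (27 * G ^ 2 * ‖h‖ ^ 2))
    unfold ip
    refine (integral_mono iD i3 b3).trans ?_
    rw [integral_const_mul]
    have h5 : ∫ x in cube, (iS N n (x + h) + iS N n (x + 0)) ≤ 2 * (132 / (N * 2 ^ n)) ^ 2 := by
      rw [integral_add (iS_int hp hN n h) (iS_int hp hN n 0)]
      linarith [iS_val hp hN n h, iS_val hp hN n 0]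
    calc 27 * G ^ 2 * ‖h‖ ^ 2 * ∫ x in cube, (iS N n (x + h) + iS N n (x + 0))
        ≤ 27 * G ^ 2 * ‖h‖ ^ 2 * (2 * (132 / (N * 2 ^ n)) ^ 2) :=
          mul_le_mul_of_nonneg_left h5 (by positivity)
      _ = _ := by ring

end

theorem t_EDI (hp1 : S_VOL) : S_EDI := by
  intro N C hN hE
  have hN0 : 0 < N := by linarith
  have hC := hE.pos
  refine ⟨132 * (8 * (1 + C)), by positivity, fun n => ?_⟩
  obtain ⟨a1, a2⟩ := fld hp1 hN n (hE.smooth n).1 (hE.per n).1 (fun x i => (hE.bd n x i).1)
    (fun x i j => (hE.grad n x i j).1) (fun x hx => hE.supp n x (Or.inl hx))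
  obtain ⟨b1, b2⟩ := fld hp1 hN n (hE.smooth n).2 (hE.per n).2 (fun x i => (hE.bd n x i).2)
    (fun x i j => (hE.grad n x i j).2) (fun x hx => hE.supp n x (Or.inr hx))
  have e4 : (4 : ℝ) ^ n = 2 ^ n * 2 ^ n := by rw [← mul_pow]; norm_num
  have e16 : (16 : ℝ) ^ n = 2 ^ n * 2 ^ n * (2 ^ n * 2 ^ n) := by
    rw [← mul_pow, ← mul_pow]; norm_num
  have hN2 : 1 / N ^ 2 ≤ 1 := by
    rw [div_le_one (by positivity)]
    exact one_le_pow₀ (by linarith)
  have hC2 : 0 ≤ C ^ 2 := by positivity
  -- numerical inequalities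
  have g : ∀ t D : ℝ, 0 ≤ D → t = 132 ^ 2 * D * (1 / N ^ 2) → t ≤ 132 ^ 2 * D := by
    intro t D hD ht
    rw [ht]
    exact mul_le_of_le_one_right (by positivity) hN2
  have k1 : 3 * 1 ^ 2 * (132 / (N * 2 ^ n)) ^ 2 ≤ (132 * (8 * (1 + C))) ^ 2 / 4 ^ n := by
    have := g (3 * 1 ^ 2 * (132 / (N * 2 ^ n)) ^ 2) (3 / 4 ^ n) (by positivity)
      (by rw [e4]; field_simp)
    refine this.trans ?_
    rw [← mul_div_assoc]
    refine div_le_div_of_nonneg_right ?_ (by positivity)
    nlinarith
  have k2 : 12 * 1 ^ 2 * (132 / (N * 2 ^ n)) ^ 2 ≤ (132 * (8 * (1 + C))) ^ 2 / 4 ^ n := by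
    have := g (12 * 1 ^ 2 * (132 / (N * 2 ^ n)) ^ 2) (12 / 4 ^ n) (by positivity)
      (by rw [e4]; field_simp)
    refine this.trans ?_
    rw [← mul_div_assoc]
    refine div_le_div_of_nonneg_right ?_ (by positivity)
    nlinarith
  have k3 : ∀ r : ℝ, 0 ≤ r → 54 * (C * 2 ^ n) ^ 2 * r * (132 / (N * 2 ^ n)) ^ 2 ≤
      (132 * (8 * (1 + C))) ^ 2 / 4 ^ n * (4 ^ n * r) := by
    intro r hr
    have := g (54 * (C * 2 ^ n) ^ 2 * r * (132 / (N * 2 ^ n)) ^ 2) (54 * C ^ 2 * r) (by positivity)
      (by field_simp)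
    refine this.trans ?_
    have h2 : (132 * (8 * (1 + C))) ^ 2 / 4 ^ n * (4 ^ n * r) = (132 * (8 * (1 + C))) ^ 2 * r := by
      field_simp
    rw [h2, ← mul_assoc]
    refine mul_le_mul_of_nonneg_right ?_ hr
    nlinarith
  have k4 : 3 * (C / 2 ^ n) ^ 2 * (132 / (N * 2 ^ n)) ^ 2 ≤
      (132 * (8 * (1 + C))) ^ 2 / 16 ^ n := by
    have := g (3 * (C / 2 ^ n) ^ 2 * (132 / (N * 2 ^ n)) ^ 2) (3 * C ^ 2 / 16 ^ n) (by positivity)
      (by rw [e16]; field_simp)
    refine this.trans ?_
    rw [← mul_div_assoc]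
    refine div_le_div_of_nonneg_right ?_ (by positivity)
    nlinarith
  have k5 : 12 * (C / 2 ^ n) ^ 2 * (132 / (N * 2 ^ n)) ^ 2 ≤
      (132 * (8 * (1 + C))) ^ 2 / 16 ^ n := by
    have := g (12 * (C / 2 ^ n) ^ 2 * (132 / (N * 2 ^ n)) ^ 2) (12 * C ^ 2 / 16 ^ n) (by positivity)
      (by rw [e16]; field_simp)
    refine this.trans ?_
    rw [← mul_div_assoc]
    refine div_le_div_of_nonneg_right ?_ (by positivity)
    nlinarith
  have k6 : ∀ r : ℝ, 0 ≤ r → 54 * C ^ 2 * r * (132 / (N * 2 ^ n)) ^ 2 ≤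
      (132 * (8 * (1 + C))) ^ 2 / 16 ^ n * (4 ^ n * r) := by
    intro r hr
    have := g (54 * C ^ 2 * r * (132 / (N * 2 ^ n)) ^ 2) (54 * C ^ 2 * r / 4 ^ n) (by positivity)
      (by rw [e4]; field_simp)
    refine this.trans ?_
    have h2 : (132 * (8 * (1 + C))) ^ 2 / 16 ^ n * (4 ^ n * r) =
        (132 * (8 * (1 + C))) ^ 2 * r / 4 ^ n := by
      rw [e16, e4]
      field_simp
    rw [h2, ← mul_div_assoc, ← mul_assoc]
    refine div_le_div_of_nonneg_right ?_ (by positivity)
    refine mul_le_mul_of_nonneg_right ?_ hr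
    nlinarith
  refine ⟨a1.trans k1, b1.trans k4, fun h => ⟨?_, ?_⟩⟩
  · rw [mul_min_of_nonneg _ _ (by positivity), mul_one]
    exact le_min ((a2 h).1.trans k2) ((a2 h).2.trans (k3 _ (by positivity)))
  · rw [mul_min_of_nonneg _ _ (by positivity), mul_one]
    exact le_min ((b2 h).1.trans k5) ((b2 h).2.trans (k6 _ (by positivity)))

end Pool.Agent.Q53.SP
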