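import Pool.Agent.Q53.SP.Mvt

/-!
# Project SP (helper62), job 20: pairings with `C¹` fields
-/

set_option autoImplicit false

open MeasureTheory Set Filter Topology
open scoped ContDiff
open H459R3.NS (V pd Per cube)

namespace Pool.Agent.Q53.SP

open Pool.Agent.Q62.SP

theorem pair_core (hp3 : S_INT) (hp4 : S_VOL) {N : ℝ} (hN : 198 ≤ N) {n : ℕ} {k : ℝ → ℝ → ℝ}
    (hk : Continuous (fun z : ℝ × ℝ => k z.1 z.2))
    (hk0 : ∀ a b, (66 ≤ |a| ∨ 66 ≤ |b|) → k a b = 0) (hk1 : ∫ a, ∫ b, k a b = 0) {q : V → ℝ}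
    (hq : ∀ x, q x = k (xi N (x 0)) (xi N (x 1))) (hqc : Continuous q) {B : ℝ}
    (hB : ∀ x, |q x| ≤ B) (hs : ∀ x, q x ≠ 0 → x ∈ SS N n) {u : V → ℝ} (hu : ContDiff ℝ 1 u)
    {L : ℝ} (hL : ∀ x j, |pd j u x| ≤ L) :
    |∫ x in cube, u x * q x| ≤ 3 * L * (66 / (N * 2 ^ n)) * B * (132 / (N * 2 ^ n)) ^ 2 := by
  have hL0 : 0 ≤ L := (abs_nonneg _).trans (hL 0 0)
  have hB0 : 0 ≤ B := (abs_nonneg _).trans (hB 0)
  have hN0 : 0 < N := by linarith
  set g : ℝ → ℝ := fun y => u ![1 / 2, 1 / 2, y] with hg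
  have hgc : Continuous g := by
    refine hu.continuous.comp ?_
    refine continuous_pi fun i => ?_
    fin_cases i
    · exact continuous_const
    · exact continuous_const
    · exact continuous_id
  have h1 : ∫ x in cube, g (x 2) * q x = 0 := by
    have h2 := hp3 N hN k hk hk0 g hgc
    rw [hk1, mul_zero, zero_div] at h2
    rw [← h2]
    simp only [hq]
  have i1 : IntegrableOn (fun x => u x * q x) cube :=
    H459R3.NS.integrableOn_cube (hu.continuous.mul hqc)
  have i2 : IntegrableOn (fun x : V => g (x 2) * q x) cube :=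
    H459R3.NS.integrableOn_cube ((hgc.comp (continuous_apply 2)).mul hqc)
  have h2 : ∫ x in cube, u x * q x = ∫ x in cube, (u x * q x - g (x 2) * q x) := by
    rw [integral_sub i1 i2, h1, sub_zero]
  have h3 : ∫ x in cube, (u x * q x - g (x 2) * q x) =
      ∫ x in cube ∩ SS N n, (u x * q x - g (x 2) * q x) := by
    refine (setIntegral_eq_of_subset_of_forall_sdiff_eq_zero measurableSet_Icc inter_subset_left ?_)
    intro x hx
    have : q x = 0 := by
      by_contra h
      exact hx.2 ⟨hx.1, hs x h⟩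
    rw [this, mul_zero, mul_zero, sub_zero]
  have hfin : volume (cube ∩ SS N n) < ⊤ := (measure_mono inter_subset_left).trans_lt cube_lt_top
  have h4 : ∀ x ∈ cube ∩ SS N n, ‖u x * q x - g (x 2) * q x‖ ≤ 3 * L * (66 / (N * 2 ^ n)) * B := by
    intro x hx
    obtain ⟨c0, c1⟩ := SS_close hN hx.1 hx.2
    rw [← sub_mul, norm_mul]
    refine mul_le_mul ?_ (hB x) (norm_nonneg _) (by positivity)
    refine (mv hu hL _ _).trans ?_
    refine mul_le_mul_of_nonneg_left ?_ (by positivity)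
    refine (pi_norm_le_iff_of_nonneg (by positivity)).2 fun i => ?_
    fin_cases i
    · simpa using c0
    · simpa using c1
    · simp; positivity
  rw [h2, h3]
  have h5 := norm_setIntegral_le_of_norm_le_const hfin h4
  rw [Real.norm_eq_abs] at h5
  refine h5.trans ?_
  exact mul_le_mul_of_nonneg_left (hp4 N hN n).2 (by positivity)

theorem t_EDP (hp1 : S_PHI) (hp2 : S_MZR) (hp3 : S_INT) (hp4 : S_VOL) : S_EDP := by
  intro N C hN hE
  obtain ⟨⟨hphi, -, -, hphi2, -, -⟩, ⟨hqq, -, -, hqq6, -⟩, ⟨hPP, -, -, hPP6, -, -, -⟩, hpsi, -, hpsi2, -, -⟩ := hp1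
  have hN0 : 0 < N := by linarith
  have hC := hE.pos
  refine ⟨3 * 66 * 132 ^ 2 * (1 + 2 * C), by positivity, ?_⟩
  intro f L hf hL n
  have hL0 : 0 ≤ L := (abs_nonneg _).trans (hL 0 0 0)
  have h2n : (1 : ℝ) ≤ 2 ^ n := one_le_pow₀ (by norm_num)
  have hu : ∀ i, ContDiff ℝ 1 (fun x => f x i) := fun i => (contDiff_pi.1 hf.c1) i
  -- the three plane functions
  have cth : Continuous (fun z : ℝ × ℝ => th n z.1 z.2) := by
    unfold th
    have h1 := hphi.continuous
    have h2 := hpsi.continuous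
    fun_prop
  have cVA : Continuous (fun z : ℝ × ℝ => VA n z.1 z.2) := by
    unfold VA
    have h1 := hPP.continuous
    have h2 := hqq.continuous
    fun_prop
  have cVB : Continuous (fun z : ℝ × ℝ => VB n z.1 z.2) := by
    unfold VB
    have h1 := hPP.continuous
    have h2 := hqq.continuous
    fun_prop
  have big : ∀ a : ℝ, 66 ≤ |a| → 6 ≤ |2 ^ n * a / 11| := fun a ha => by
    rw [abs_div, abs_mul, abs_of_pos (by positivity : (0 : ℝ) < 2 ^ n), abs_of_pos (by norm_num : (0 : ℝ) < 11),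
      le_div_iff₀ (by norm_num)]
    nlinarith
  have zth : ∀ a b, (66 ≤ |a| ∨ 66 ≤ |b|) → th n a b = 0 := by
    intro a b h
    unfold th
    rcases h with h | h
    · rw [hphi2 _ (by
        rw [abs_mul, abs_mul, abs_of_pos (by positivity : (0 : ℝ) < 2 ^ n), abs_of_pos (by norm_num : (0 : ℝ) < 140)]
        nlinarith), zero_mul]
    · have : psi (2 ^ n * b) = 0 := by
        by_contra hne
        obtain ⟨h1, h2⟩ := hpsi2 _ hne
        have h3 : |2 ^ n * b| ≤ 52 / 10 := by
          rw [abs_of_pos (by linarith)]; exact h2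
        rw [abs_mul, abs_of_pos (by positivity : (0 : ℝ) < 2 ^ n)] at h3
        nlinarith
      rw [this, mul_zero]
  have zVA : ∀ a b, (66 ≤ |a| ∨ 66 ≤ |b|) → VA n a b = 0 := by
    intro a b h
    unfold VA
    rcases h with h | h
    · rw [hPP6 _ (big a h), mul_zero, zero_mul]
    · rw [hqq6 _ (big b h), mul_zero]
  have zVB : ∀ a b, (66 ≤ |a| ∨ 66 ≤ |b|) → VB n a b = 0 := by
    intro a b h
    unfold VB
    rcases h with h | h
    · rw [hqq6 _ (big a h), mul_zero, zero_mul, neg_zero]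
    · rw [hPP6 _ (big b h), mul_zero, neg_zero]
  obtain ⟨m1, m2, m3⟩ := hp2 n
  have ce : ∀ i, Continuous (fun x => ee N n x i) := fun i =>
    ((contDiff_pi.1 (hE.smooth n).1) i).continuous
  have cd : ∀ i, Continuous (fun x => dd N n x i) := fun i =>
    ((contDiff_pi.1 (hE.smooth n).2) i).continuous
  have k1 := pair_core hp3 hp4 hN (n := n) cth zth m1 (q := fun x => ee N n x 2) (fun x => rfl) (ce 2)
    (fun x => (hE.bd n x 2).1) (fun x hx => hE.supp n x (Or.inl fun h => hx (by rw [h]; rfl))) (hu 2)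
    (fun x j => hL x 2 j)
  have k2 := pair_core hp3 hp4 hN (n := n) cVA zVA m2 (q := fun x => dd N n x 0) (fun x => rfl) (cd 0)
    (fun x => (hE.bd n x 0).2) (fun x hx => hE.supp n x (Or.inr fun h => hx (by rw [h]; rfl))) (hu 0)
    (fun x j => hL x 0 j)
  have k3 := pair_core hp3 hp4 hN (n := n) cVB zVB m3 (q := fun x => dd N n x 1) (fun x => rfl) (cd 1)
    (fun x => (hE.bd n x 1).2) (fun x hx => hE.supp n x (Or.inr fun h => hx (by rw [h]; rfl))) (hu 1)
    (fun x j => hL x 1 j)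
  have hN1 : 1 ≤ N := by linarith
  have hN3 : 1 / N ^ 3 ≤ 1 := by
    rw [div_le_one (by positivity)]
    exact one_le_pow₀ hN1
  have e8 : (8 : ℝ) ^ n = 2 ^ n * 2 ^ n * 2 ^ n := by
    rw [← mul_pow, ← mul_pow]; norm_num
  have e16 : (16 : ℝ) ^ n = 2 ^ n * 2 ^ n * 2 ^ n * 2 ^ n := by
    rw [← mul_pow, ← mul_pow, ← mul_pow]; norm_num
  constructor
  · have h1 : ip f (ee N n) = ∫ x in cube, f x 2 * ee N n x 2 := by
      unfold ip
      refine integral_congr_ae (Eventually.of_forall fun x => ?_)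
      simp [Fin.sum_univ_three, ee]
    rw [h1]
    refine k1.trans ?_
    have h2 : 3 * L * (66 / (N * 2 ^ n)) * 1 * (132 / (N * 2 ^ n)) ^ 2 =
        3 * 66 * 132 ^ 2 * L / 8 ^ n * (1 / N ^ 3) := by
      rw [e8]
      field_simp
    rw [h2]
    have h3 : 0 ≤ 3 * 66 * 132 ^ 2 * L / 8 ^ n := by positivity
    refine (mul_le_of_le_one_right h3 hN3).trans ?_
    refine div_le_div_of_nonneg_right ?_ (by positivity)
    nlinarith [mul_nonneg hC.le hL0]
  · have h1 : ip f (dd N n) = (∫ x in cube, f x 0 * dd N n x 0) + ∫ x in cube, f x 1 * dd N n x 1 := by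
      unfold ip
      have i0 : IntegrableOn (fun x => f x 0 * dd N n x 0) cube :=
        H459R3.NS.integrableOn_cube ((hu 0).continuous.mul (cd 0))
      have i1 : IntegrableOn (fun x => f x 1 * dd N n x 1) cube :=
        H459R3.NS.integrableOn_cube ((hu 1).continuous.mul (cd 1))
      rw [← integral_add i0 i1]
      refine integral_congr_ae (Eventually.of_forall fun x => ?_)
      simp [Fin.sum_univ_three, dd]
    rw [h1]
    refine (abs_add_le _ _).trans ((add_le_add k2 k3).trans ?_)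
    have h2 : 3 * L * (66 / (N * 2 ^ n)) * (C / 2 ^ n) * (132 / (N * 2 ^ n)) ^ 2 +
        3 * L * (66 / (N * 2 ^ n)) * (C / 2 ^ n) * (132 / (N * 2 ^ n)) ^ 2 =
        3 * 66 * 132 ^ 2 * (2 * C) * L / 16 ^ n * (1 / N ^ 3) := by
      rw [e16]
      field_simp
      ring
    rw [h2]
    have h3 : 0 ≤ 3 * 66 * 132 ^ 2 * (2 * C) * L / 16 ^ n := by positivity
    refine (mul_le_of_le_one_right h3 hN3).trans ?_
    refine div_le_div_of_nonneg_right ?_ (by positivity)
    nlinarith [mul_nonneg hC.le hL0]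

end Pool.Agent.Q53.SP
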