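import Pool.Agent.Q41.SP.Stm4

/-!
# Project SP (helper41), jobs N14, N19a: tools for the fibres
-/

set_option autoImplicit false

namespace Pool.Agent.Q53.SP

open Polynomial Pool.Agent.Q41.SU Pool.Agent.Q41.SP

section fibre

variable {L Λ : Type*} [Field L] [NormedField Λ]

/-- the fibre over the power series -/
noncomputable def fib (G : (PowerSeries L)[X][X]) (y : L) : (PowerSeries L)[X] :=
  G.map (evalRingHom (PowerSeries.C y))

lemma fib_coeff (G : (PowerSeries L)[X][X]) (y : L) (i : ℕ) :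
    (fib G y).coeff i = (G.coeff i).eval (PowerSeries.C y) := by
  unfold fib
  rw [coeff_map]
  rfl

lemma gt_eq (ψ : PowerSeries L →+* Λ) (G : (PowerSeries L)[X][X]) (y : L) :
    gt ψ G y = (fib G y).map ψ := by
  unfold gt fib
  rw [Polynomial.map_map]
  congr 1
  apply Polynomial.ringHom_ext
  · intro a
    simp
  · simp

lemma fib_cc (G : (PowerSeries L)[X][X]) (y : L) :
    (fib G y).map PowerSeries.constantCoeff = (red G).map (evalRingHom y) := by
  unfold fib red
  rw [Polynomial.map_map, Polynomial.map_map]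
  congr 1
  apply Polynomial.ringHom_ext
  · intro a
    simp
  · simp

variable {ψ : PowerSeries L →+* Λ}

lemma nle (hψ : IsPs ψ) (f : PowerSeries L) : ‖ψ f‖ ≤ 1 := by
  have h := (hψ f 0).2 (by simp)
  simpa using h

lemma nunit (hψ : IsPs ψ) (f : PowerSeries L) (h : PowerSeries.constantCoeff f ≠ 0) :
    ‖ψ f‖ = 1 := by
  have h1 := PowerSeries.mul_inv_cancel f h
  have h2 : ‖ψ f‖ * ‖ψ f⁻¹‖ = 1 := by
    rw [← norm_mul, ← map_mul, h1, map_one, norm_one]
  have h3 := nle hψ f
  have h4 := nle hψ f⁻¹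
  have h5 := norm_nonneg (ψ f)
  have h6 := norm_nonneg (ψ f⁻¹)
  nlinarith

lemma nsmall (hψ : IsPs ψ) (f : PowerSeries L) (h : PowerSeries.constantCoeff f = 0) :
    ‖ψ f‖ ≤ Real.exp (-1) := by
  have h1 := (hψ f 1).2 (by rw [pow_one]; exact PowerSeries.X_dvd_iff.2 h)
  simpa using h1

end fibre

section poly

variable {Λ : Type*} [NormedField Λ] [IsUltrametricDist Λ]

lemma evalb (p : Λ[X]) (β : ℕ) (ε : ℝ) (hε : 0 ≤ ε) (hd : p.natDegree ≤ β)
    (hc : ∀ i, ‖p.coeff i‖ ≤ ε) (w : Λ) : ‖p.eval w‖ ≤ ε * (max 1 ‖w‖) ^ β := by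
  rw [eval_eq_sum_range' (Nat.lt_succ_of_le hd)]
  have h1 : (1 : ℝ) ≤ max 1 ‖w‖ := le_max_left _ _
  apply IsUltrametricDist.norm_sum_le_of_forall_le_of_nonneg (by positivity)
  intro i hi
  rw [Finset.mem_range] at hi
  rw [norm_mul, norm_pow]
  apply mul_le_mul (hc i) _ (by positivity) hε
  calc ‖w‖ ^ i ≤ (max 1 ‖w‖) ^ i := pow_le_pow_left₀ (norm_nonneg _) (le_max_right _ _) i
    _ ≤ _ := pow_le_pow_right₀ h1 (by omega)

/-- roots of a polynomial with unit leading coefficient -/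
lemma rootb (p : Λ[X]) (β : ℕ) (hd : p.natDegree ≤ β) (hc : ∀ i, ‖p.coeff i‖ ≤ 1)
    (hl : ‖p.coeff β‖ = 1) (w : Λ) (hw : p.eval w = 0) : ‖w‖ ≤ 1 := by
  by_contra h
  rw [not_le] at h
  rcases Nat.eq_zero_or_pos β with h0 | h0
  · rw [h0] at hd hl
    rw [eq_C_of_natDegree_le_zero hd, eval_C] at hw
    rw [hw, norm_zero] at hl
    norm_num at hl
  · rw [eval_eq_sum_range' (Nat.lt_succ_of_le hd), Finset.sum_range_succ] at hw
    have h1 : ‖∑ x ∈ Finset.range β, p.coeff x * w ^ x‖ ≤ ‖w‖ ^ (β - 1) := by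
      apply IsUltrametricDist.norm_sum_le_of_forall_le_of_nonneg (by positivity)
      intro i hi
      rw [Finset.mem_range] at hi
      rw [norm_mul, norm_pow]
      calc ‖p.coeff i‖ * ‖w‖ ^ i ≤ 1 * ‖w‖ ^ (β - 1) := by
            apply mul_le_mul (hc i) _ (by positivity) (by norm_num)
            exact pow_le_pow_right₀ h.le (by omega)
        _ = _ := one_mul _
    have h2 : ‖p.coeff β * w ^ β‖ = ‖w‖ ^ β := by rw [norm_mul, norm_pow, hl, one_mul]
    have h3 : p.coeff β * w ^ β = -∑ x ∈ Finset.range β, p.coeff x * w ^ x := by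
      rw [eq_neg_iff_add_eq_zero, add_comm]
      exact hw
    rw [h3, norm_neg] at h2
    rw [h2] at h1
    have h4 : ‖w‖ ^ (β - 1) < ‖w‖ ^ β := pow_lt_pow_right₀ h (by omega)
    linarith

omit [IsUltrametricDist Λ] in
lemma factb [IsAlgClosed Λ] (p : Λ[X]) (β : ℕ) (hd : p.natDegree ≤ β) (hl : p.coeff β ≠ 0) :
    ∃ w : Fin β → Λ, p = C (p.coeff β) * ∏ j, (X - C (w j)) := by
  have hdeg : p.natDegree = β := le_antisymm hd (le_natDegree_of_ne_zero hl)
  have hcard : Multiset.card p.roots = p.natDegree :=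
    (IsAlgClosed.splits p).natDegree_eq_card_roots.symm
  have h1 := C_leadingCoeff_mul_prod_multiset_X_sub_C hcard
  have hlen : p.roots.toList.length = β := by
    rw [Multiset.length_toList, hcard, hdeg]
  refine ⟨fun j => p.roots.toList.get (j.cast hlen.symm), ?_⟩
  have h2 : ∏ j : Fin β, (X - C (p.roots.toList.get (j.cast hlen.symm))) =
      (p.roots.map fun a => X - C a).prod := by
    have h3 : p.roots = (p.roots.toList : Multiset Λ) := (Multiset.coe_toList _).symm
    conv_rhs => rw [h3]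
    rw [Multiset.map_coe, Multiset.prod_coe]
    have h4 : List.ofFn (fun j : Fin β => X - C (p.roots.toList.get (j.cast hlen.symm))) =
        p.roots.toList.map (fun a => X - C a) := by
      apply List.ext_get
      · simp [hlen]
      · intro n h5 h6
        simp
    rw [← h4, List.prod_ofFn]
  rw [h2]
  have h3 : p.coeff β = p.leadingCoeff := by rw [leadingCoeff, hdeg]
  rw [h3]
  exact h1.symm

end poly

end Pool.Agent.Q53.SP
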