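import Pool.Agent.Q62.SP.Stm
import Pool.Agent.H459R3.NS.Four

/-!
# Project SP (helper62): mean value inequalities and the sets `SS N n`
-/

set_option autoImplicit false

open MeasureTheory Set Filter Topology
open scoped ContDiff
open H459R3.NS (V pd Per cube)

namespace Pool.Agent.Q53.SP

open Pool.Agent.Q62.SP

theorem fderiv_le {u : V → ℝ} {L : ℝ} {x : V} (hL : ∀ j, |pd j u x| ≤ L) :
    ‖fderiv ℝ u x‖ ≤ 3 * L := by
  have hL0 : 0 ≤ L := (abs_nonneg _).trans (hL 0)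
  refine ContinuousLinearMap.opNorm_le_bound _ (by positivity) fun w => ?_
  have hw : w = ∑ j, w j • (Pi.single j (1 : ℝ) : V) := by
    ext i
    simp [Finset.sum_apply, Pi.single_apply]
  have h1 : fderiv ℝ u x w = ∑ j, w j * pd j u x := by
    conv_lhs => rw [hw]
    rw [map_sum]
    refine Finset.sum_congr rfl fun j _ => ?_
    rw [map_smul, smul_eq_mul]
    rfl
  rw [h1]
  have h2 : ∀ j, ‖w j * pd j u x‖ ≤ ‖w‖ * L := fun j => by
    rw [norm_mul]
    exact mul_le_mul (norm_le_pi_norm w j) (hL j) (norm_nonneg _) (norm_nonneg _)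
  calc ‖∑ j, w j * pd j u x‖ ≤ ∑ j, ‖w j * pd j u x‖ := norm_sum_le _ _
    _ ≤ ∑ _j : Fin 3, ‖w‖ * L := Finset.sum_le_sum fun j _ => h2 j
    _ = 3 * L * ‖w‖ := by simp; ring

theorem mv {u : V → ℝ} (hu : ContDiff ℝ 1 u) {L : ℝ} (hL : ∀ x j, |pd j u x| ≤ L) (x y : V) :
    |u y - u x| ≤ 3 * L * ‖y - x‖ :=
  convex_univ.norm_image_sub_le_of_norm_fderiv_le (fun z _ => hu.differentiable one_ne_zero z)
    (fun z _ => fderiv_le (hL z)) (mem_univ x) (mem_univ y)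

/-- in the cube, the points of `SS N n` are close to the axis -/
theorem SS_close {N : ℝ} (hN : 198 ≤ N) {n : ℕ} {x : V} (hx : x ∈ cube) (hS : x ∈ SS N n) :
    |x 0 - 1 / 2| ≤ 66 / (N * 2 ^ n) ∧ |x 1 - 1 / 2| ≤ 66 / (N * 2 ^ n) := by
  have hN0 : 0 < N := by linarith
  have key : ∀ s : ℝ, 0 ≤ s → s ≤ 1 → |xi N s| ≤ 66 / 2 ^ n → |s - 1 / 2| ≤ 66 / (N * 2 ^ n) := by
    intro s h0 h1 h2
    unfold xi at h2
    have h66 : (66 : ℝ) / 2 ^ n ≤ 66 := div_le_self (by norm_num) (one_le_pow₀ (by norm_num))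
    rcases h1.lt_or_eq with h | h
    · rw [Int.fract_eq_self.2 ⟨h0, h⟩, abs_mul, abs_of_pos hN0] at h2
      rw [mul_comm N, ← div_div, le_div_iff₀ hN0, mul_comm]
      exact h2
    · rw [h, Int.fract_one, abs_mul, abs_of_pos hN0] at h2
      exfalso
      have h3 : |(0 : ℝ) - 1 / 2| = 1 / 2 := by norm_num
      rw [h3] at h2
      linarith
  exact ⟨key _ (hx.1 0) (hx.2 0) hS.1, key _ (hx.1 1) (hx.2 1) hS.2⟩

theorem cube_lt_top : volume (cube : Set V) < ⊤ := by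
  rw [H459R3.NS.volume_cube]
  exact ENNReal.one_lt_top

end Pool.Agent.Q53.SP
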