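import Pool.Agent.Q62.SP.Stm
import Pool.Agent.H459R3.NS.Evo

/-!
# Project SP (helper62), job 34: uniqueness
-/

set_option autoImplicit false

open MeasureTheory Set Filter Topology
open scoped ContDiff
open H459R3.NS (V pd Per cube)

namespace Pool.Agent.Q53.SP

open Pool.Agent.Q62.SP

theorem per_exists_cube {F : Type*} {f : V → F} (hf : Per f) (x : V) : ∃ y ∈ cube, f y = f x := by
  refine ⟨fun i => Int.fract (x i), ?_, ?_⟩
  · exact ⟨fun i => Int.fract_nonneg _, fun i => (Int.fract_lt_one _).le⟩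
  · have h := hf.int (fun i => ⌊x i⌋) (fun i => Int.fract (x i))
    rw [← h]
    congr 1
    funext i
    simp

theorem cube_closure : cube ⊆ closure (interior cube) := by
  have h : (cube : Set V) = Set.pi univ (fun _ => Icc (0 : ℝ) 1) := by
    unfold H459R3.NS.cube
    rw [← Set.pi_univ_Icc]
    rfl
  rw [h, interior_pi_set finite_univ, closure_pi_set]
  refine Set.pi_mono fun i _ => ?_
  rw [interior_Icc, closure_Ioo (by norm_num)]

/-- a nonnegative continuous periodic function with integral zero vanishes -/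
theorem eq_zero_of_int {f : V → ℝ} (hf : Continuous f) (hp : Per f) (h0 : ∀ x, 0 ≤ f x)
    (hi : ∫ x in cube, f x ≤ 0) (x : V) : f x = 0 := by
  have h1 : ∫ x in cube, f x = 0 := le_antisymm hi (integral_nonneg h0)
  have h2 : f =ᵐ[volume.restrict cube] 0 :=
    (integral_eq_zero_iff_of_nonneg (fun x => h0 x) (H459R3.NS.integrableOn_cube hf)).1 h1
  have h3 : EqOn f 0 cube :=
    Measure.eqOn_of_ae_eq h2 hf.continuousOn continuousOn_const cube_closure
  obtain ⟨y, hy, hyx⟩ := per_exists_cube hp x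
  rw [← hyx]
  exact h3 hy

/-- Gronwall: `E' ≤ K E`, `E 0 = 0` -/
theorem gron0 {E E' : ℝ → ℝ} {K b : ℝ} (hc : ContinuousOn E (Icc 0 b))
    (hd : ∀ t ∈ Ioo 0 b, HasDerivAt E (E' t) t) (hE : ∀ t ∈ Ioo 0 b, E' t ≤ K * E t)
    (h0 : E 0 ≤ 0) {t : ℝ} (ht : t ∈ Icc 0 b) : E t ≤ 0 := by
  have h1 : AntitoneOn (fun s => E s * Real.exp (-(K * s))) (Icc 0 b) := by
    refine antitoneOn_of_deriv_nonpos (convex_Icc 0 b) ?_ ?_ ?_
    · exact hc.mul (by fun_prop)
    · rw [interior_Icc]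
      intro s hs
      have h2 : HasDerivAt (fun s => Real.exp (-(K * s))) (Real.exp (-(K * s)) * (-(K * 1))) s :=
        (((hasDerivAt_id s).const_mul K).neg).exp
      exact ((hd s hs).mul h2).differentiableAt.differentiableWithinAt
    · rw [interior_Icc]
      intro s hs
      have h2 : HasDerivAt (fun s => Real.exp (-(K * s))) (Real.exp (-(K * s)) * (-(K * 1))) s :=
        (((hasDerivAt_id s).const_mul K).neg).exp
      have h3 := ((hd s hs).mul h2).deriv
      have h4 : (fun s => E s * Real.exp (-(K * s))) = E * fun s => Real.exp (-(K * s)) := rfl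
      rw [h4, h3]
      have h5 := hE s hs
      have h6 := Real.exp_pos (-(K * s))
      nlinarith
  have hb : (0 : ℝ) ∈ Icc 0 b := ⟨le_rfl, ht.1.trans ht.2⟩
  have h2 := h1 hb ht ht.1
  simp only [mul_zero, neg_zero, Real.exp_zero, mul_one] at h2
  have h3 := Real.exp_pos (-(K * t))
  by_contra h4
  push Not at h4
  have := mul_pos h4 h3
  linarith

theorem slice_c1 {T : ℝ} {v : ℝ → V → V}
    (hv : ContDiffOn ℝ 1 (fun z : ℝ × V => v z.1 z.2) (Ico 0 T ×ˢ univ)) {t : ℝ}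
    (ht : t ∈ Ico 0 T) : ContDiff ℝ 1 (v t) := by
  rw [← contDiffOn_univ]
  exact hv.comp (contDiff_const.prodMk contDiff_id).contDiffOn (fun x _ => ⟨ht, mem_univ _⟩)

theorem comp_c1 {T : ℝ} {v : ℝ → V → V}
    (hv : ContDiffOn ℝ 1 (fun z : ℝ × V => v z.1 z.2) (Ico 0 T ×ˢ univ)) (i : Fin 3) :
    ContDiffOn ℝ 1 (fun z : ℝ × V => v z.1 z.2 i) (Ico 0 T ×ˢ univ) :=
  (contDiffOn_pi.1 hv) i

theorem t_UNI (hp1 : S_TRI) (hp2 : S_BDG) : S_UNI := by
  intro δ A hδ hA T T' v v' p p' hS hS' h0 t₀ ht₀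
  obtain ⟨b, hb1, hb2⟩ := exists_between ht₀.2
  have hbT : b < T := hb2.trans_le (min_le_left _ _)
  have hbT' : b < T' := hb2.trans_le (min_le_right _ _)
  have hb0 : 0 ≤ b := ht₀.1.trans hb1.le
  obtain ⟨L₁, hL₁⟩ := hp2 T b v hS.c1_v hS.per_v hbT
  obtain ⟨L₂, hL₂⟩ := hp2 T' b v' hS'.c1_v hS'.per_v hbT'
  set L := max L₁ L₂ with hL
  set M := min T T' with hM
  have hsub : Ico 0 M ×ˢ (univ : Set V) ⊆ Ico 0 T ×ˢ univ :=
    prod_mono (Ico_subset_Ico_right (min_le_left _ _)) subset_rfl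
  have hsub' : Ico 0 M ×ˢ (univ : Set V) ⊆ Ico 0 T' ×ˢ univ :=
    prod_mono (Ico_subset_Ico_right (min_le_right _ _)) subset_rfl
  have hv1 : ContDiffOn ℝ 1 (fun z : ℝ × V => v z.1 z.2) (Ico 0 M ×ˢ univ) := hS.c1_v.mono hsub
  have hv1' : ContDiffOn ℝ 1 (fun z : ℝ × V => v' z.1 z.2) (Ico 0 M ×ˢ univ) := hS'.c1_v.mono hsub'
  set F : ℝ → V → ℝ := fun t x => ∑ i, (v' t x i - v t x i) ^ 2 with hF
  have hFc : ContDiffOn ℝ 1 (fun z : ℝ × V => F z.1 z.2) (Ico 0 M ×ˢ univ) := by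
    refine ContDiffOn.sum fun i _ => ?_
    exact ((comp_c1 hv1' i).sub (comp_c1 hv1 i)).pow 2
  have hFo : ContDiffOn ℝ 1 (fun z : ℝ × V => F z.1 z.2) (Ioo 0 M ×ˢ univ) :=
    hFc.mono (prod_mono Ioo_subset_Ico_self subset_rfl)
  have hvo : ∀ i, ContDiffOn ℝ 1 (fun z : ℝ × V => v z.1 z.2 i) (Ioo 0 M ×ˢ univ) := fun i =>
    (comp_c1 hv1 i).mono (prod_mono Ioo_subset_Ico_self subset_rfl)
  have hvo' : ∀ i, ContDiffOn ℝ 1 (fun z : ℝ × V => v' z.1 z.2 i) (Ioo 0 M ×ˢ univ) := fun i =>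
    (comp_c1 hv1' i).mono (prod_mono Ioo_subset_Ico_self subset_rfl)
  have hE1 : ContinuousOn (fun s => ∫ x in cube, F s x) (Icc 0 b) :=
    (H459R3.NS.continuousOn_int hFc.continuousOn).mono
      (fun s hs => ⟨hs.1, hs.2.trans_lt hb2⟩)
  have hE2 : ∀ t ∈ Ioo 0 b, HasDerivAt (fun s => ∫ x in cube, F s x)
      (∫ x in cube, deriv (fun s => F s x) t) t := fun t ht =>
    H459R3.NS.hasDerivAt_int hFo ⟨ht.1, ht.2.trans hb2⟩
  have hE3 : ∀ t ∈ Ioo 0 b, (∫ x in cube, deriv (fun s => F s x) t) ≤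
      2 * ((3 + 7 * δ) * L) * ∫ x in cube, F t x := by
    intro t ht
    have htM : t ∈ Ioo 0 M := ⟨ht.1, ht.2.trans hb2⟩
    have htT : t ∈ Ioo 0 T := ⟨ht.1, ht.2.trans hbT⟩
    have htT' : t ∈ Ioo 0 T' := ⟨ht.1, ht.2.trans hbT'⟩
    have htb : t ∈ Icc 0 b := ⟨ht.1.le, ht.2.le⟩
    have e1 : ∀ x, deriv (fun s => F s x) t = 2 * ∑ i,
        (deriv (fun s => v' s x i) t - deriv (fun s => v s x i) t) * (v' t x i - v t x i) := by
      intro x
      have hd : ∀ i, HasDerivAt (fun s => v s x i) (deriv (fun s => v s x i) t) t := fun i =>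
        (H459R3.NS.hasDerivAt_slice (F := fun s x => v s x i) (hvo i) htM x).differentiableAt.hasDerivAt
      have hd' : ∀ i, HasDerivAt (fun s => v' s x i) (deriv (fun s => v' s x i) t) t := fun i =>
        (H459R3.NS.hasDerivAt_slice (F := fun s x => v' s x i) (hvo' i) htM x).differentiableAt.hasDerivAt
      have h1 : HasDerivAt (fun s => F s x) (∑ i, ((2 : ℕ) : ℝ) * (v' t x i - v t x i) ^ (2 - 1) *
          (deriv (fun s => v' s x i) t - deriv (fun s => v s x i) t)) t :=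
        HasDerivAt.fun_sum fun i _ => ((hd' i).sub (hd i)).pow 2
      rw [h1.deriv, Finset.mul_sum]
      refine Finset.sum_congr rfl fun i _ => ?_
      push_cast
      ring
    have hc : C1P (v t) := ⟨slice_c1 hS.c1_v ⟨htT.1.le, htT.2⟩, hS.per_v t ⟨htT.1.le, htT.2⟩⟩
    have hc' : C1P (v' t) := ⟨slice_c1 hS'.c1_v ⟨htT'.1.le, htT'.2⟩, hS'.per_v t ⟨htT'.1.le, htT'.2⟩⟩
    have hp1c := hS.c1_p t htT
    have hp1c' := hS'.c1_p t htT'
    have key := hp1 δ A hδ hA (v t) (v' t) hc hc' (hS.divfree t ⟨htT.1.le, htT.2⟩)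
      (hS'.divfree t ⟨htT'.1.le, htT'.2⟩) (fun x => p' t x - p t x) (hp1c'.sub hp1c)
      (fun i x => by simp only [hS'.per_p t htT' i x, hS.per_p t htT i x]) L
      (fun x i j => (hL₁ t htb x i j).trans (le_max_left _ _))
      (fun x i j => (hL₂ t htb x i j).trans (le_max_right _ _))
      (fun x i => deriv (fun s => v' s x i) t - deriv (fun s => v s x i) t) (fun x i => by
        have m1 := hS.momentum t htT x i
        have m2 := hS'.momentum t htT' x i
        have m3 : pd i (fun x => p' t x - p t x) x = pd i (p' t) x - pd i (p t) x := by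
          unfold H459R3.NS.pd
          rw [fderiv_fun_sub (hp1c'.differentiable one_ne_zero x)
            (hp1c.differentiable one_ne_zero x)]
          rfl
        rw [m3]
        linarith)
    calc (∫ x in cube, deriv (fun s => F s x) t)
        = 2 * ∫ x in cube, ∑ i,
          (deriv (fun s => v' s x i) t - deriv (fun s => v s x i) t) * (v' t x i - v t x i) := by
          rw [← integral_const_mul]
          exact integral_congr_ae (Eventually.of_forall e1)
      _ ≤ 2 * ((3 + 7 * δ) * L * ∫ x in cube, F t x) :=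
          mul_le_mul_of_nonneg_left key (by norm_num)
      _ = _ := by ring
  have hE0 : (∫ x in cube, F 0 x) ≤ 0 := by
    have : ∀ x, F 0 x = 0 := fun x => by simp [hF, h0]
    simp [this]
  have hmem : t₀ ∈ Icc 0 b := ⟨ht₀.1, hb1.le⟩
  have hEt := gron0 hE1 hE2 hE3 hE0 hmem
  have hcF : Continuous (F t₀) := by
    have := hFc.continuousOn.comp_continuous (f := fun x : V => ((t₀, x) : ℝ × V)) (by fun_prop)
      (fun x => ⟨ht₀, mem_univ _⟩)
    exact this
  have hpF : Per (F t₀) := fun i x => by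
    simp only [hF, hS.per_v t₀ ⟨ht₀.1, ht₀.2.trans_le (min_le_left _ _)⟩ i x,
      hS'.per_v t₀ ⟨ht₀.1, ht₀.2.trans_le (min_le_right _ _)⟩ i x]
  have hz := eq_zero_of_int hcF hpF (fun x => Finset.sum_nonneg fun i _ => sq_nonneg _) hEt
  funext x
  funext i
  have h1 := (Finset.sum_eq_zero_iff_of_nonneg (fun i _ => sq_nonneg (v' t₀ x i - v t₀ x i))).1
    (hz x) i (Finset.mem_univ i)
  have h2 := pow_eq_zero_iff (two_ne_zero) |>.1 h1
  linarith

end Pool.Agent.Q53.SP
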